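import Pool.Agent.H564R2.QF.Defs

/-!
# Circuits with counting gates modulo `p` over De Morgan formulas
-/

namespace H632.PM

open Pool.Agent.H564R2.QF (Fml)

/-- Boolean functions of `n` bits which agree on `{0,1}^n` with a real polynomial of total degree
at most `w`. -/
def LeafFn (n w : ℕ) : Type :=
  {h : (Fin n → Bool) → Bool // ∃ q : MvPolynomial (Fin n) ℝ, q.totalDegree ≤ w ∧
    ∀ x : Fin n → Bool,
      MvPolynomial.eval (fun i => if x i then (1 : ℝ) else 0) q = if h x then 1 else 0}

/-- Boolean functions computed by a De Morgan formula with at most `s` leaves, each of which is a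
function of real degree at most `w`. -/
def Bottom (n w s : ℕ) (f : (Fin n → Bool) → Bool) : Prop :=
  ∃ φ : Fml (LeafFn n w), φ.size ≤ s ∧ ∀ x, f x = φ.eval fun h => h.1 x

/-- The function `g` is computed by one gate (OR, AND, NOT, or a gate which tests whether a linear
form in its inputs is congruent to `r` modulo `p`) from the functions `h i` with `i ∈ ins`. -/
def IsGate (p : ℕ) {X ι : Type} (ins : Finset ι) (h : ι → X → Bool) (g : X → Bool) : Prop :=
  (∀ x, g x = true ↔ ∃ i ∈ ins, h i x = true) ∨
  (∀ x, g x = true ↔ ∀ i ∈ ins, h i x = true) ∨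
  (∃ i ∈ ins, ∀ x, g x = !(h i x)) ∨
  (∃ (c : ι → ℕ) (r : ℕ), ∀ x,
    g x = true ↔ (∑ i ∈ ins, if h i x = true then c i else 0) ≡ r [MOD p])

/-- Circuits of depth at most `d` with `N` nodes: every node is a gate which reads nodes of smaller
level, or it is computed by a formula of size at most `s` over functions of degree at most `w`. -/
structure Circ (p n w s d N : ℕ) where
  /-- the function computed at a node -/
  val : Fin N → (Fin n → Bool) → Bool
  /-- the level of a node -/
  lev : Fin N → ℕ
  lev_le : ∀ i, lev i ≤ d
  node : ∀ i, Bottom n w s (val i) ∨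
    ∃ ins : Finset (Fin N), (∀ j ∈ ins, lev j < lev i) ∧ IsGate p ins val (val i)

end H632.PM
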