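import Pool.Agent.H632R2.PM.Razb
import Pool.Agent.H599R2.PH.Low

/-!
# Lower bound: majority is not in a low level
-/

set_option linter.unusedSectionVars false

namespace H632.PM

open Finset H599.QB
open H599.PH (Coord Good restrict ind)
open Pool.Agent.H564R2.QF (Fml LowDeg)

variable {p : ℕ} [Fact p.Prime]

section general

variable {V : Type} [Fintype V] [DecidableEq V]

theorem family {l : List Quant} {m s n : ℕ} {f : (Fin n → Bool) → Prop}
    (hf : f ∈ Lev p l m s n) {τ : (V → Bool) → (Fin n → Bool)} (hτ : Coord τ) :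
    ∃ P : (Fin l.length → Fin m → Bool) → (V → Bool) → Bool, (∀ ys, Good s (P ys)) ∧
      ∀ z, f (τ z) ↔ qev p m l fun ys => P ys z = true := by
  induction l generalizing n f with
  | nil =>
    obtain ⟨φ, h1, h2⟩ := hf
    refine ⟨fun _ z => φ.eval (τ z), fun _ => ⟨n, φ, τ, hτ, h1, fun _ => rfl⟩, fun z => ?_⟩
    rw [h2 (τ z)]
    exact Iff.rfl
  | cons q l ih =>
    obtain ⟨g, hg, hg'⟩ := hf
    have h1 := fun y : Fin m → Bool => ih hg (hτ.append y)
    choose P hP hP' using h1
    refine ⟨fun ys => P (ys 0) (Fin.tail ys), fun ys => hP _ _, fun z => ?_⟩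
    rw [hg' (τ z)]
    change q.Holds p _ ↔ q.Holds p _
    have e : (fun y : Fin m → Bool => g (Fin.append (τ z) y))
        = fun y => qev p m l fun ys => P ((Fin.cons y ys : Fin (l.length + 1) → Fin m → Bool) 0)
          (Fin.tail (Fin.cons y ys : Fin (l.length + 1) → Fin m → Bool)) z = true := by
      funext y
      simp only [Fin.cons_zero, Fin.tail_cons]
      exact propext (hP' y z)
    rw [e]

/-- the point of the subcube -/
def pt {S₀ : Finset V} (x : V → Bool) (u : S₀ → Bool) : V → Bool :=
  flip ((Finset.univ.filter fun w => u w = true).image Subtype.val) x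

/-- restriction to a subcube: functions whose large alternating sums vanish have low degree -/
theorem sub_mem {t : ℕ} {S₀ : Finset V} {x : V → Bool} {g : (V → Bool) → Bool}
    (h : ∀ S ⊆ S₀, t < S.card → alt S (ind g) x = 0) :
    (fun u : S₀ → Bool => iF p (g (pt x u) = true)) ∈ PF p S₀ t := by
  classical
  refine mem_of_alt _ fun S hS => ?_
  have hinj : Function.Injective (Subtype.val : S₀ → V) := Subtype.val_injective
  have h1 := h (S.image Subtype.val) (by
    intro v hv
    obtain ⟨w, _, rfl⟩ := Finset.mem_image.1 hv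
    exact w.2) (by rw [Finset.card_image_of_injective _ hinj]; exact hS)
  unfold alt at h1
  rw [Finset.powerset_image, Finset.sum_image (fun a _ b _ hab =>
    Finset.image_injective hinj hab)] at h1
  have h2 : ((∑ U ∈ S.powerset, (-1) ^ U.card *
      (if g (flip (U.image Subtype.val) x) then 1 else 0) : ℤ) : ℝ) = 0 := by
    push_cast
    refine Eq.trans ?_ h1
    refine Finset.sum_congr rfl fun U _ => ?_
    rw [Finset.card_image_of_injective _ hinj]
    rfl
  have h3 : (∑ U ∈ S.powerset, (-1) ^ U.card *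
      (if g (flip (U.image Subtype.val) x) then 1 else 0) : ℤ) = 0 := by exact_mod_cast h2
  have h4 : ((∑ U ∈ S.powerset, (-1) ^ U.card *
      (if g (flip (U.image Subtype.val) x) then 1 else 0) : ℤ) : ZMod p) = 0 := by
    rw [h3]; simp
  rw [← h4]
  push_cast
  refine Finset.sum_congr rfl fun U _ => ?_
  have h5 : (Finset.univ.filter fun w : S₀ => decide (w ∈ U) = true) = U := by
    ext w; simp
  unfold pt
  rw [h5]
  congr 1
  by_cases hg : g (flip (U.image Subtype.val) x) = true
  · rw [iF_true hg, if_pos hg]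
  · rw [iF_false hg, if_neg hg]

theorem wt_sum {W : Type} [Fintype W] (u : W → Bool) : wt u = ∑ i, if u i = true then 1 else 0 := by
  unfold wt
  rw [Finset.card_filter]

theorem wt_pt {S₀ : Finset V} (x : V → Bool) (u : S₀ → Bool) :
    wt (pt x u) = (S₀ᶜ.filter fun v => x v = true).card + wt fun i : S₀ => u i ^^ x i := by
  classical
  have h1 : ∀ i : S₀, pt x u i = (u i ^^ x i) := by
    intro i
    unfold pt H599.QB.flip
    have : (i : V) ∈ (Finset.univ.filter fun w => u w = true).image Subtype.val ↔ u i = true := by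
      rw [Finset.mem_image]
      constructor
      · rintro ⟨j, hj, hji⟩
        have : j = i := Subtype.ext hji
        rw [← this]
        exact (Finset.mem_filter.1 hj).2
      · intro h
        exact ⟨i, Finset.mem_filter.2 ⟨Finset.mem_univ _, h⟩, rfl⟩
    by_cases hu : u i = true
    · rw [if_pos (this.2 hu), hu]; simp
    · rw [if_neg fun h => hu (this.1 h)]
      rw [Bool.not_eq_true] at hu
      rw [hu]; simp
  have h2 : ∀ v ∉ S₀, pt x u v = x v := by
    intro v hv
    unfold pt H599.QB.flip
    rw [if_neg]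
    rw [Finset.mem_image]
    rintro ⟨j, _, rfl⟩
    exact hv j.2
  rw [wt_sum, wt_sum, ← Finset.sum_add_sum_compl S₀, add_comm, Finset.card_filter]
  congr 1
  · refine Finset.sum_congr rfl fun v hv => ?_
    rw [h2 v (Finset.mem_compl.1 hv)]
  · rw [← Finset.sum_coe_sort]
    refine Finset.sum_congr rfl fun i _ => ?_
    rw [h1 i]

end general

theorem ones_append {v w : ℕ} (z : Fin v → Bool) (y : Fin w → Bool) :
    ones (Fin.append z y) = ones z + ones y := by
  unfold ones
  rw [Finset.card_filter, Finset.card_filter, Finset.card_filter, Fin.sum_univ_add]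
  congr 1
  · refine Finset.sum_congr rfl fun i _ => ?_
    rw [Fin.append_left]
  · refine Finset.sum_congr rfl fun i _ => ?_
    rw [Fin.append_right]

theorem ones_pad {w c : ℕ} (h : c ≤ w) : ones (fun j : Fin w => decide ((j : ℕ) < c)) = c := by
  unfold ones
  rw [Finset.card_filter]
  have h1 : (∑ j : Fin w, if decide ((j : ℕ) < c) = true then 1 else 0)
      = ∑ j ∈ Finset.range w, if j < c then 1 else 0 := by
    rw [← Fin.sum_univ_eq_sum_range (fun j => if j < c then 1 else 0) w]
    refine Finset.sum_congr rfl fun j _ => ?_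
    simp
  rw [h1, ← Finset.card_filter]
  have h2 : (Finset.range w).filter (fun j => j < c) = Finset.range c := by
    ext j
    rw [Finset.mem_filter, Finset.mem_range, Finset.mem_range]
    omega
  rw [h2, Finset.card_range]

/-- Lower bound: majority of many bits is not in a low level. -/
theorem maj_lower {l : List Quant} {m s v w L T D : ℕ}
    (hf : (fun x : Fin (v + w) → Bool => v + w < 2 * ones x) ∈ Lev p l m s (v + w))
    (hvw : v ≤ w) (hw : w ≤ 2 ^ L) (hw' : w ≤ v + 1) (hm : m ≤ L) (hL : 1 ≤ L) (hT : 1 ≤ T)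
    (hs : s ≤ T ^ 2) (hD : (p * (3 * L * (l.length + 2))) ^ (l.length + 1) ≤ D) :
    v < 1226880 * T * (8 * D ^ 2 + 1) := by
  classical
  by_contra hcon
  rw [not_lt] at hcon
  set k := l.length with hk
  -- the substitutions
  have hcoord : ∀ c : Fin (w + 1), Coord fun z : Fin v → Bool =>
      Fin.append z (fun j : Fin w => decide ((j : ℕ) < c)) := fun c =>
    Coord.append (τ := fun z => z) (fun i => coord_mem i) _
  have h1 := fun c : Fin (w + 1) => family hf (hcoord c)
  choose P hP hP' using h1
  obtain ⟨S₀, hS₀, x, hx⟩ := restrict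
    (fun i : Fin (w + 1) × (Fin l.length → Fin m → Bool) => P i.1 i.2)
    (t := (k + 2) * L) (T := T) (M := 8 * D ^ 2 + 1) (Nat.succ_pos _) hT
    (fun i j _ => (hP i.1 i.2).approx hT (hs.trans (Nat.le_mul_of_pos_left _ (Nat.succ_pos j))))
    (by rw [Fintype.card_fin]; exact hcon) (by
      rw [Fintype.card_prod, Fintype.card_fun, Fintype.card_fun, Fintype.card_bool,
        Fintype.card_fin, Fintype.card_fin, Fintype.card_fin, ← pow_mul,
        show (4 : ℕ) = 2 ^ 2 from rfl, ← pow_mul, ← hk]
      have h2 : w + 1 ≤ 2 ^ (L + 1) := by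
        have : 1 ≤ 2 ^ L := Nat.one_le_two_pow
        rw [pow_succ]; omega
      calc 2 * ((w + 1) * 2 ^ (m * k)) ≤ 2 * (2 ^ (L + 1) * 2 ^ (L * k)) :=
            Nat.mul_le_mul_left _ (Nat.mul_le_mul h2
              (Nat.pow_le_pow_right (by norm_num) (Nat.mul_le_mul_right _ hm)))
        _ = 2 ^ (1 + (L + 1) + L * k) := by rw [pow_add 2 (1 + (L + 1)), pow_add 2 1]; ring
        _ ≤ _ := Nat.pow_le_pow_right (by norm_num) (by nlinarith))
  -- the number of padding ones
  set a := (S₀ᶜ.filter fun v => x v = true).card with ha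
  have haS : a + (8 * D ^ 2 + 1) ≤ v := by
    have h3 : a ≤ S₀ᶜ.card := Finset.card_filter_le _ _
    rw [Finset.card_compl, Fintype.card_fin, hS₀] at h3
    have h4 : S₀.card ≤ v := by
      have := Finset.card_le_univ S₀
      rwa [Fintype.card_fin] at this
    rw [hS₀] at h4
    omega
  obtain ⟨c, hc⟩ : ∃ c, c = (v + w) / 2 - 4 * D ^ 2 - a := ⟨_, rfl⟩
  have hcw : c ≤ w := by omega
  have hw1 : ∀ z : Fin v → Bool, ones (Fin.append z (fun j : Fin w => decide ((j : ℕ) < c)))
      = wt z + c := fun z => by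
    rw [ones_append, ones_pad hcw]
    rfl
  refine no_maj (p := p) (W := S₀) (m := m) (t := (k + 2) * L) (r := 3 * L * (k + 1)) (D := D)
    l ?_ ?_ ?_ ?_
    (fun ys u => P ⟨c, by omega⟩ ys (pt x fun i : S₀ => u i ^^ x i) = true)
    (fun ys => translate_mem (sub_mem (p := p) (hx (⟨c, by omega⟩, ys))) fun i : S₀ => x i) ?_
  · nlinarith
  · have h1 : 2 ^ m + 1 ≤ 2 ^ (L + 1) := by
      have : 1 ≤ 2 ^ L := Nat.one_le_two_pow
      have h2 : 2 ^ m ≤ 2 ^ L := Nat.pow_le_pow_right (by norm_num) hm
      rw [pow_succ]; omega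
    rw [← hk]
    calc 8 * (2 ^ m + 1) ^ k ≤ 8 * (2 ^ (L + 1)) ^ k :=
          Nat.mul_le_mul_left _ (Nat.pow_le_pow_left h1 k)
      _ = 2 ^ (3 + (L + 1) * k) := by rw [pow_add 2 3, pow_mul]; norm_num
      _ ≤ _ := Nat.pow_le_pow_right (by norm_num) (by nlinarith)
  · refine le_trans ?_ hD
    rw [← hk, pow_succ]
    have hp1 : 1 ≤ p := (Fact.out : p.Prime).one_le
    refine Nat.mul_le_mul (Nat.pow_le_pow_left (Nat.mul_le_mul_left _ ?_) _) ?_
    · exact Nat.mul_le_mul_left _ (by omega)
    · calc (k + 2) * L ≤ 3 * L * (k + 2) := by nlinarith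
        _ ≤ p * (3 * L * (k + 2)) := Nat.le_mul_of_pos_left _ hp1
  · rw [Fintype.card_coe, hS₀]
  · intro u
    rw [← hP' ⟨c, by omega⟩]
    rw [hw1, wt_pt, ← ha]
    have e : (fun i : S₀ => (u i ^^ x i) ^^ x i) = u := by
      funext i
      cases u i <;> cases x i <;> rfl
    rw [e]
    omega

end H632.PM
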