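import Pool.Agent.H632R2.PM.CDefs
import Pool.Agent.H632R2.PM.Low
import Pool.Agent.H599R2.QB.Thr

/-!
# Majority is hard for circuits with gates modulo `p` over subquadratic formulas
-/

set_option linter.unusedSectionVars false

namespace H632.PM

open Finset H599.QB
open H599.PH (Coord restrict ind)
open Pool.Agent.H564R2.QF (Fml LowDeg)

variable {p : ℕ} [Fact p.Prime]

section poly

variable {W : Type} [Fintype W] [DecidableEq W]

/-- linear forms modulo `p` -/
theorem lin_approx {ι : Type} [Fintype ι] {d : ℕ} {r : ℕ} (hr : 1 ≤ r) (c : ι → ℕ) (a : ℕ)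
    (g : ι → (W → Bool) → Bool)
    (f : ι → (W → Bool) → ZMod p) (hf : ∀ y, f y ∈ PF p W d) (E : ι → Finset (W → Bool))
    (hE : ∀ y, ∀ u ∉ E y, f y u = iF p (g y u = true)) :
    ∃ q ∈ PF p W (r * (p * d)), ∃ F : Finset (W → Bool),
      (∀ u ∉ F, q u = iF p ((∑ y, if g y u = true then c y else 0) ≡ a [MOD p])) ∧
      F.card * 2 ^ r ≤ (∑ y, (E y).card) * 2 ^ r + 2 ^ Fintype.card W := by
  classical
  refine ⟨fun u => 1 - (∑ y, (c y : ZMod p) * f y u - (a : ZMod p)) ^ (p - 1), ?_,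
    Finset.univ.biUnion E, ?_, ?_⟩
  · have h3 : (fun u => ∑ y, (c y : ZMod p) * f y u) ∈ PF p W d :=
      sumF_mem _ _ fun y _ => Submodule.smul_mem _ (c y : ZMod p) (hf y)
    have h4 := powF_mem (Submodule.sub_mem _ h3 (constF_mem (a : ZMod p) d)) (p - 1)
    have e : (fun u => 1 - (∑ y, (c y : ZMod p) * f y u - (a : ZMod p)) ^ (p - 1))
        = (fun _ => (1 : ZMod p))
          - fun u => (∑ y, (c y : ZMod p) * f y u - (a : ZMod p)) ^ (p - 1) := rfl
    rw [e]
    refine Submodule.sub_mem _ (constF_mem _ _) (PF.mono ?_ h4)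
    calc (p - 1) * d ≤ p * d := Nat.mul_le_mul_right _ (Nat.sub_le _ _)
      _ ≤ r * (p * d) := Nat.le_mul_of_pos_left _ hr
  · intro u hu
    rw [Finset.mem_biUnion] at hu
    have hpu : ∀ y, f y u = iF p (g y u = true) := fun y =>
      hE y u fun h => hu ⟨y, Finset.mem_univ y, h⟩
    have hcard : ∑ y, (c y : ZMod p) * f y u
        = ((∑ y, if g y u = true then c y else 0 : ℕ) : ZMod p) := by
      rw [Nat.cast_sum]
      refine Finset.sum_congr rfl fun y _ => ?_
      rw [hpu y]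
      by_cases h : g y u = true
      · rw [iF_true h, if_pos h]; simp
      · rw [iF_false h, if_neg h]; simp
    beta_reduce
    rw [hcard]
    by_cases h : (∑ y, if g y u = true then c y else 0) ≡ a [MOD p]
    · rw [iF_true h, (ZMod.natCast_eq_natCast_iff _ _ _).2 h, sub_self, zero_pow_pred, sub_zero]
    · rw [iF_false h, pow_pred, sub_self]
      intro h2
      exact h ((ZMod.natCast_eq_natCast_iff _ _ _).1 (sub_eq_zero.1 h2))
  · have h1 : (Finset.univ.biUnion E).card ≤ ∑ y, (E y).card := Finset.card_biUnion_le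
    exact (Nat.mul_le_mul_right _ h1).trans (Nat.le_add_right _ _)

/-- functions exactly represented by a polynomial of degree `D` outside a small set -/
def Rep (p : ℕ) (W : Type) [Fintype W] [DecidableEq W] (D r e : ℕ) (g : (W → Bool) → Bool) : Prop :=
  ∃ q ∈ PF p W D, ∃ F : Finset (W → Bool), (∀ u ∉ F, q u = iF p (g u = true)) ∧
    F.card * 2 ^ r ≤ e * 2 ^ Fintype.card W

theorem Rep.mono {D D' r e : ℕ} {g : (W → Bool) → Bool} (h : D ≤ D') (hg : Rep p W D r e g) :
    Rep p W D' r e g := by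
  obtain ⟨q, hq, F, hF⟩ := hg
  exact ⟨q, PF.mono h hq, F, hF⟩

/-- one gate -/
theorem gate_rep {N D r e : ℕ} (hr : 1 ≤ r) {h : Fin N → (W → Bool) → Bool}
    {g : (W → Bool) → Bool} {ins : Finset (Fin N)} (hg : IsGate p ins h g)
    (hh : ∀ i ∈ ins, Rep p W D r e (h i)) :
    Rep p W (r * (p * D)) r (N * e + 1) g := by
  classical
  have hp1 : 1 ≤ p := (Fact.out : p.Prime).one_le
  have h1 : ∀ i : ins, Rep p W D r e (h i) := fun i => hh i i.2
  choose q hq E hE hc using h1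
  have hsum : (∑ y, (E y).card) * 2 ^ r + 2 ^ Fintype.card W
      ≤ (N * e + 1) * 2 ^ Fintype.card W := by
    have h2 : (∑ y, (E y).card) * 2 ^ r ≤ N * (e * 2 ^ Fintype.card W) := by
      rw [Finset.sum_mul]
      calc ∑ y, (E y).card * 2 ^ r ≤ ∑ _y : ins, e * 2 ^ Fintype.card W :=
            Finset.sum_le_sum fun y _ => hc y
        _ = ins.card * (e * 2 ^ Fintype.card W) := by
            rw [Finset.sum_const, Finset.card_univ, Fintype.card_coe, smul_eq_mul]
        _ ≤ N * (e * 2 ^ Fintype.card W) := by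
            refine Nat.mul_le_mul_right _ ?_
            have := Finset.card_le_univ ins
            rwa [Fintype.card_fin] at this
    calc _ ≤ N * (e * 2 ^ Fintype.card W) + 2 ^ Fintype.card W := Nat.add_le_add_right h2 _
      _ = _ := by ring
  rcases hg with hg | hg | hg | hg
  · obtain ⟨Q, hQ, F, hF, hFc⟩ := or_approx r (fun (y : ins) u => h y u = true) q hq E hE
    refine ⟨Q, hQ, F, fun u hu => ?_, hFc.trans hsum⟩
    rw [hF u hu]
    congr 1
    rw [hg u]
    exact propext ⟨fun ⟨y, hy⟩ => ⟨y, y.2, hy⟩, fun ⟨i, hi, hy⟩ => ⟨⟨i, hi⟩, hy⟩⟩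
  · obtain ⟨Q, hQ, F, hF, hFc⟩ := or_approx r (fun (y : ins) u => ¬ h y u = true)
      (fun y u => 1 - q y u) (fun y => Submodule.sub_mem _ (constF_mem 1 _) (hq y)) E
      (fun y u hu => by rw [hE y u hu, iF_not])
    refine ⟨fun u => 1 - Q u, Submodule.sub_mem _ (constF_mem 1 _) hQ, F, fun u hu => ?_,
      hFc.trans hsum⟩
    beta_reduce
    rw [hF u hu, ← iF_not]
    congr 1
    rw [hg u]
    exact propext ⟨fun h1 i hi => by_contra fun h2 => h1 ⟨⟨i, hi⟩, h2⟩,
      fun h1 ⟨y, hy⟩ => hy (h1 y y.2)⟩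
  · obtain ⟨i, hi, hg⟩ := hg
    refine ⟨fun u => 1 - q ⟨i, hi⟩ u, Submodule.sub_mem _ (constF_mem 1 _)
      (PF.mono ?_ (hq ⟨i, hi⟩)), E ⟨i, hi⟩, fun u hu => ?_, ?_⟩
    · calc D = 1 * (1 * D) := by ring
        _ ≤ r * (p * D) := Nat.mul_le_mul hr (Nat.mul_le_mul_right _ hp1)
    · beta_reduce
      rw [hE _ u hu, ← iF_not, hg u]
      congr 1
      cases h i u <;> simp
    · refine (hc ⟨i, hi⟩).trans (Nat.mul_le_mul_right _ ?_)
      have hN : 1 ≤ N := by
        have := i.2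
        omega
      nlinarith
  · obtain ⟨c, a, hg⟩ := hg
    obtain ⟨Q, hQ, F, hF, hFc⟩ := lin_approx hr (fun y : ins => c y) a
      (fun (y : ins) u => h y u) q hq E hE
    refine ⟨Q, hQ, F, fun u hu => ?_, hFc.trans hsum⟩
    rw [hF u hu]
    congr 1
    rw [hg u, ← Finset.sum_coe_sort ins]

/-- all nodes -/
theorem nodes_rep {N t r : ℕ} (hr : 1 ≤ r) (val : Fin N → (W → Bool) → Bool) (lev : Fin N → ℕ)
    (hnode : ∀ i, (fun u => iF p (val i u = true)) ∈ PF p W t ∨
      ∃ ins : Finset (Fin N), (∀ j ∈ ins, lev j < lev i) ∧ IsGate p ins val (val i)) (l : ℕ) :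
    ∀ i, lev i ≤ l → Rep p W ((p * r) ^ l * t) r ((N + 1) ^ l) (val i) := by
  have hp1 : 1 ≤ p := (Fact.out : p.Prime).one_le
  have hpr : 1 ≤ p * r := Nat.one_le_iff_ne_zero.2 (by positivity)
  have hbot : ∀ i l, (fun u => iF p (val i u = true)) ∈ PF p W t →
      Rep p W ((p * r) ^ l * t) r ((N + 1) ^ l) (val i) := by
    intro i l h
    refine ⟨_, PF.mono ?_ h, ∅, fun u _ => rfl, by simp⟩
    exact Nat.le_mul_of_pos_left _ (Nat.one_le_pow _ _ hpr)
  induction l with
  | zero =>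
    intro i hi
    rcases hnode i with h | ⟨ins, h1, h2⟩
    · exact hbot i 0 h
    · have h3 : ins = ∅ := by
        rw [Finset.eq_empty_iff_forall_notMem]
        intro j hj
        have := h1 j hj
        omega
      subst h3
      -- a gate without inputs is constant
      have hconst : ∃ b : Bool, ∀ u, val i u = b := by
        rcases h2 with h2 | h2 | h2 | h2
        · refine ⟨false, fun u => ?_⟩
          have := h2 u
          simpa using this
        · refine ⟨true, fun u => ?_⟩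
          have := h2 u
          simpa using this
        · obtain ⟨j, hj, _⟩ := h2
          simp at hj
        · obtain ⟨c, r, h2⟩ := h2
          by_cases h3 : 0 ≡ r [MOD p]
          · refine ⟨true, fun u => ?_⟩
            have := h2 u
            simpa [h3] using this
          · refine ⟨false, fun u => ?_⟩
            have := h2 u
            simpa [h3] using this
      obtain ⟨b, hb⟩ := hconst
      refine hbot i 0 ?_
      have e : (fun u => iF p (val i u = true)) = fun _ => iF p (b = true) := by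
        funext u
        rw [hb u]
      rw [e]
      exact constF_mem _ _
  | succ l ih =>
    intro i hi
    rcases hnode i with h | ⟨ins, h1, h2⟩
    · exact hbot i (l + 1) h
    · obtain ⟨q, hq, F, hF, hFc⟩ := gate_rep hr h2 fun j hj => ih j (by
        have := h1 j hj
        omega)
      refine ⟨q, PF.mono (le_of_eq ?_) hq, F, hF, hFc.trans (Nat.mul_le_mul_right _ ?_)⟩
      · rw [pow_succ]; ring
      · have : 1 ≤ (N + 1) ^ l := Nat.one_le_pow _ _ (by omega)
        calc N * (N + 1) ^ l + 1 ≤ N * (N + 1) ^ l + (N + 1) ^ l := by omega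
          _ = _ := by rw [pow_succ]; ring

/-- low-degree functions are far from majority -/
theorem maj_contra {r e D : ℕ} (hr : 8 * e ≤ 2 ^ r) (hW : Fintype.card W = 8 * D ^ 2 + 1)
    {g : (W → Bool) → Bool} (hg : Rep p W D r e g)
    (he : 0 < e)
    (hmaj : ∀ u, g u = true ↔ 4 * D ^ 2 < wt u) : False := by
  classical
  obtain ⟨q, hq, F, hF, hFc⟩ := hg
  have hW2 : Fintype.card W = 2 * (4 * D ^ 2) + 1 := by rw [hW]; ring
  have h1 := smolensky_maj hW2 hq (Finset.univ \ F) fun u hu => by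
    rw [hF u (Finset.mem_sdiff.1 hu).2]
    split_ifs with h
    · exact iF_true ((hmaj u).2 h)
    · exact iF_false fun h2 => h ((hmaj u).1 h2)
  have h2 := H599.PH.half_count (D := D) (m := 4 * D ^ 2) (by omega)
  have h3 : (Finset.univ \ F).card + F.card = 2 * 4 ^ (4 * D ^ 2) := by
    rw [Finset.card_sdiff_add_card_eq_card (Finset.subset_univ F), Finset.card_univ,
      Fintype.card_fun, Fintype.card_bool, hW2, pow_succ, pow_mul]
    norm_num
    ring
  have h4 : 8 * F.card ≤ 2 * 4 ^ (4 * D ^ 2) := by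
    have e4 : 2 ^ Fintype.card W = 2 * 4 ^ (4 * D ^ 2) := by
      rw [hW2, pow_succ, pow_mul]
      norm_num
      ring
    have h5 : F.card * 2 ^ r ≤ e * (2 * 4 ^ (4 * D ^ 2)) := by
      rw [← e4]
      exact hFc
    refine Nat.le_of_mul_le_mul_left ?_ he
    calc e * (8 * F.card) = F.card * (8 * e) := by ring
      _ ≤ F.card * 2 ^ r := Nat.mul_le_mul_left _ hr
      _ ≤ _ := h5
  omega

end poly

section general

variable {V : Type} [Fintype V] [DecidableEq V]

/-- functions computed by a formula of size at most `s` over functions of degree at most `w` -/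
def GoodW (s w : ℕ) (g : (V → Bool) → Bool) : Prop :=
  ∃ (L : Type) (φ : Fml L) (τ : (V → Bool) → (L → Bool)), (∀ l, (fun z => sg (τ z l)) ∈ Deg V w) ∧
    φ.size ≤ s ∧ ∀ z, g z = φ.eval (τ z)

theorem subst_leaf {L : Type} {w D : ℕ} {τ : (V → Bool) → (L → Bool)}
    (hτ : ∀ l, (fun z => sg (τ z l)) ∈ Deg V w) {P : (L → Bool) → ℝ} (hP : P ∈ LowDeg L D) :
    (fun z => P (τ z)) ∈ Deg V (D * w) := by
  induction hP using Submodule.span_induction with
  | mem f hf =>
    obtain ⟨S, hS, rfl⟩ := hf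
    have e : (fun z => Pool.Agent.H564R2.QF.chi S (τ z)) = fun z => ∏ g ∈ S, sg (τ z g) := rfl
    rw [e]
    have := prod_mem S w (fun g z => sg (τ z g)) fun g _ => hτ g
    exact Deg.mono (Nat.mul_le_mul_right w hS) this
  | zero => exact Submodule.zero_mem _
  | add f g _ _ ihf ihg => exact Submodule.add_mem _ ihf ihg
  | smul a f _ ihf => exact Submodule.smul_mem _ a ihf

theorem subst_deg {n d : ℕ} {τ : (V → Bool) → (Fin n → Bool)} (hτ : Coord τ)
    {g : (Fin n → Bool) → ℝ} (hg : g ∈ Deg (Fin n) d) : (fun z => g (τ z)) ∈ Deg V d := by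
  induction hg using Submodule.span_induction with
  | mem f hf =>
    obtain ⟨S, hS, rfl⟩ := hf
    have e : (fun z => chi S (τ z)) = fun z => ∏ g ∈ S, sg (τ z g) := rfl
    rw [e]
    have := prod_mem S 1 (fun g z => sg (τ z g)) fun g _ => hτ g
    rw [mul_one] at this
    exact Deg.mono hS this
  | zero => exact Submodule.zero_mem _
  | add f g _ _ ihf ihg => exact Submodule.add_mem _ ihf ihg
  | smul a f _ ihf => exact Submodule.smul_mem _ a ihf

theorem Bottom.good {n w s : ℕ} {f : (Fin n → Bool) → Bool} (hf : Bottom n w s f)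
    {τ : (V → Bool) → (Fin n → Bool)} (hτ : Coord τ) : GoodW s w fun z => f (τ z) := by
  obtain ⟨φ, h1, h2⟩ := hf
  refine ⟨LeafFn n w, φ, fun z h => h.1 (τ z), fun h => ?_, h1, fun z => h2 (τ z)⟩
  have h3 : (fun z : Fin n → Bool => sg (h.1 z)) ∈ Deg (Fin n) w := leaf_mem' h.2
  exact subst_deg hτ h3

theorem GoodW.approx {s w T j : ℕ} {g : (V → Bool) → Bool} (hg : GoodW s w g) (hT : 1 ≤ T)
    (hs : s ≤ (j + 1) * T ^ 2) :
    ∃ p ∈ Deg V (12780 * (j + 1) * (T * w)), (∀ x, |p x| ≤ 1) ∧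
      ∀ x, |p x - ind g x| ≤ 1 / 2 ^ (j + 1) := by
  obtain ⟨L, φ, τ, hτ, hφ, hgφ⟩ := hg
  obtain ⟨P0, hP0, hP0'⟩ := Pool.Agent.H564R2.QF.formula_approx_of
    Pool.Agent.H564R2.QF.approx_const Pool.Agent.H564R2.QF.decomp
    Pool.Agent.H564R2.QF.robust φ (j + 1) T (Nat.succ_pos j) hT (hφ.trans hs)
  set P : (V → Bool) → ℝ := fun z => P0 (τ z) with hPdef
  have hP : P ∈ Deg V (12780 * (j + 1) * (T * w)) := by
    have := subst_leaf hτ hP0
    rwa [mul_assoc] at this
  have hP' : ∀ z, |P z - ind g z| ≤ (1 / 4) ^ (j + 1) := by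
    intro z
    have := hP0' (τ z)
    unfold ind
    rw [hgφ z]
    exact this
  have he0 : (0 : ℝ) < (1 / 4) ^ (j + 1) := by positivity
  have he : ((1 : ℝ) / 4) ^ (j + 1) ≤ 1 / 2 ^ (j + 1) / 2 := by
    have e1 : ((1 : ℝ) / 4) ^ (j + 1) = 1 / 2 ^ (j + 1) * (1 / 2 ^ (j + 1)) := by
      rw [show (1 / 4 : ℝ) = 1 / 2 * (1 / 2) by norm_num, mul_pow, one_div_pow]
    have e2 : (1 : ℝ) / 2 ^ (j + 1) ≤ 1 / 2 := by
      apply one_div_le_one_div_of_le (by norm_num)
      calc (2 : ℝ) = 2 ^ 1 := by norm_num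
        _ ≤ 2 ^ (j + 1) := pow_le_pow_right₀ (by norm_num) (by omega)
    rw [e1, div_eq_mul_one_div (1 / 2 ^ (j + 1)) (2 : ℝ)]
    exact mul_le_mul_of_nonneg_left e2 (by positivity)
  set e : ℝ := (1 / 4) ^ (j + 1) with hedef
  have hind : ∀ z, ind g z = 0 ∨ ind g z = 1 := by
    intro z
    unfold ind
    split_ifs
    · exact Or.inr rfl
    · exact Or.inl rfl
  refine ⟨(1 / (1 + e)) • P, Submodule.smul_mem _ _ hP, fun z => ?_, fun z => ?_⟩
  · have h1 := abs_le.1 (hP' z)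
    rw [Pi.smul_apply, smul_eq_mul, abs_mul, abs_of_pos (by positivity : 0 < 1 / (1 + e)),
      one_div, inv_mul_le_iff₀ (by positivity), mul_one, abs_le]
    rcases hind z with h | h <;> rw [h] at h1 <;> constructor <;> linarith [h1.1, h1.2]
  · have h1 := abs_le.1 (hP' z)
    have hpos : 0 < 1 + e := by positivity
    have h2 : ((1 / (1 + e)) • P) z = P z / (1 + e) := by
      rw [Pi.smul_apply, smul_eq_mul]; ring
    rw [h2]
    have h3 : P z / (1 + e) - ind g z = ((P z - ind g z) - e * ind g z) / (1 + e) := by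
      field_simp
      ring
    rw [h3, abs_div, abs_of_pos hpos, div_le_iff₀ hpos]
    have h4 : (1 : ℝ) / 2 ^ (j + 1) * (1 + e) ≥ 1 / 2 ^ (j + 1) := by
      have : (0 : ℝ) < 1 / 2 ^ (j + 1) := by positivity
      nlinarith
    refine le_trans ?_ h4
    rw [abs_le]
    rcases hind z with h | h <;> rw [h] at h1 ⊢ <;> constructor <;> linarith [h1.1, h1.2]

theorem GoodW.const {s w : ℕ} (b : Bool) : GoodW s w (fun _ : V → Bool => b) :=
  ⟨Empty, .const b, fun _ e => e.elim, fun e => e.elim, Nat.zero_le _, fun _ => rfl⟩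

end general

theorem IsGate.comp {X Y ι : Type} {ins : Finset ι} {h : ι → X → Bool} {g : X → Bool}
    (hg : IsGate p ins h g) (τ : Y → X) : IsGate p ins (fun i y => h i (τ y)) fun y => g (τ y) := by
  rcases hg with hg | hg | hg | hg
  · exact Or.inl fun y => hg (τ y)
  · exact Or.inr (Or.inl fun y => hg (τ y))
  · obtain ⟨i, hi, hg⟩ := hg
    exact Or.inr (Or.inr (Or.inl ⟨i, hi, fun y => hg (τ y)⟩))
  · obtain ⟨c, r, hg⟩ := hg
    exact Or.inr (Or.inr (Or.inr ⟨c, r, fun y => hg (τ y)⟩))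

/-- Lower bound for circuits. -/
theorem circ_lower {v w e s d N L T D θ : ℕ} (C : Circ p (v + w) e s d N) (i₀ : Fin N)
    (hC : ∀ x, C.val i₀ x = true ↔ θ ≤ ones x)
    (hvθ : v ≤ θ) (hw : w ≤ 2 ^ L) (hθw : θ ≤ w + 1) (hN : N + 1 ≤ 2 ^ L) (hL : 1 ≤ L)
    (hT : 1 ≤ T) (he : 1 ≤ e) (hs : s ≤ T ^ 2)
    (hD : (p * (3 * L * (d + 2))) ^ (d + 1) ≤ D) :
    v < 1226880 * (T * e) * (8 * D ^ 2 + 1) := by
  classical
  by_contra hcon
  rw [not_lt] at hcon
  have hp1 : 1 ≤ p := (Fact.out : p.Prime).one_le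
  have hTe : 1 ≤ T * e := Nat.one_le_iff_ne_zero.2 (by positivity)
  -- the substitutions
  have hcoord : ∀ c : Fin (w + 1), Coord fun z : Fin v → Bool =>
      Fin.append z (fun j : Fin w => decide ((j : ℕ) < c)) := fun c =>
    Coord.append (τ := fun z => z) (fun i => coord_mem i) _
  obtain ⟨G, hG⟩ : ∃ G : Fin (w + 1) × Fin N → (Fin v → Bool) → Bool, G = fun i z =>
      if Bottom (v + w) e s (C.val i.2) then
        C.val i.2 (Fin.append z (fun j : Fin w => decide ((j : ℕ) < i.1))) else false := ⟨_, rfl⟩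
  have hgood : ∀ i, GoodW s e (G i) := by
    intro i
    rw [hG]
    by_cases h : Bottom (v + w) e s (C.val i.2)
    · simp only [if_pos h]
      exact h.good (hcoord i.1)
    · simp only [if_neg h]
      exact GoodW.const false
  obtain ⟨S₀, hS₀, x, hx⟩ := restrict G
    (t := (d + 2) * L) (T := T * e) (M := 8 * D ^ 2 + 1) (Nat.succ_pos _) hTe
    (fun i j _ => (hgood i).approx hT (hs.trans (Nat.le_mul_of_pos_left _ (Nat.succ_pos j))))
    (by rw [Fintype.card_fin]; exact hcon) (by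
      rw [Fintype.card_prod, Fintype.card_fin, Fintype.card_fin,
        show (4 : ℕ) = 2 ^ 2 from rfl, ← pow_mul]
      have h2 : w + 1 ≤ 2 ^ (L + 1) := by
        have : 1 ≤ 2 ^ L := Nat.one_le_two_pow
        rw [pow_succ]; omega
      have h3 : N ≤ 2 ^ L := by omega
      calc 2 * ((w + 1) * N) ≤ 2 * (2 ^ (L + 1) * 2 ^ L) :=
            Nat.mul_le_mul_left _ (Nat.mul_le_mul h2 h3)
        _ = 2 ^ (1 + (L + 1) + L) := by rw [pow_add 2 (1 + (L + 1)), pow_add 2 1]; ring
        _ ≤ _ := Nat.pow_le_pow_right (by norm_num) (by nlinarith))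
  -- the number of padding ones
  set a := (S₀ᶜ.filter fun v => x v = true).card with ha
  have haS : a + (8 * D ^ 2 + 1) ≤ v := by
    have h3 : a ≤ S₀ᶜ.card := Finset.card_filter_le _ _
    rw [Finset.card_compl, Fintype.card_fin, hS₀] at h3
    have h4 : S₀.card ≤ v := by
      have := Finset.card_le_univ S₀
      rwa [Fintype.card_fin] at this
    rw [hS₀] at h4
    omega
  obtain ⟨c, hc⟩ : ∃ c, c = θ - 1 - 4 * D ^ 2 - a := ⟨_, rfl⟩
  have hcw : c ≤ w := by omega
  have hw1 : ∀ z : Fin v → Bool, ones (Fin.append z (fun j : Fin w => decide ((j : ℕ) < c)))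
      = wt z + c := fun z => by
    rw [ones_append, ones_pad hcw]
    rfl
  -- the nodes on the subcube
  have hr1 : 1 ≤ 3 * L * (d + 1) := by nlinarith
  have hrep := nodes_rep (p := p) (W := S₀) (N := N) (t := (d + 2) * L) hr1
    (fun i u => C.val i (Fin.append (pt x fun i : S₀ => u i ^^ x i)
      (fun j : Fin w => decide ((j : ℕ) < c)))) C.lev (fun i => by
      rcases C.node i with h | ⟨ins, h1, h2⟩
      · left
        have h3 := translate_mem (sub_mem (p := p) (hx (⟨c, by omega⟩, i))) fun i : S₀ => x i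
        rw [hG] at h3
        simp only [if_pos h] at h3
        exact h3
      · right
        exact ⟨ins, h1, h2.comp _⟩) d i₀ (C.lev_le i₀)
  have hdeg : (p * (3 * L * (d + 1))) ^ d * ((d + 2) * L) ≤ D := by
    refine le_trans ?_ hD
    rw [pow_succ]
    refine Nat.mul_le_mul (Nat.pow_le_pow_left (Nat.mul_le_mul_left _ ?_) _) ?_
    · exact Nat.mul_le_mul_left _ (by omega)
    · calc (d + 2) * L ≤ 3 * L * (d + 2) := by nlinarith
        _ ≤ p * (3 * L * (d + 2)) := Nat.le_mul_of_pos_left _ hp1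
  have hrep2 := hrep.mono hdeg
  refine maj_contra ?_ (by rw [Fintype.card_coe, hS₀]) hrep2 (by positivity) fun u => ?_
  · calc 8 * (N + 1) ^ d ≤ 8 * (2 ^ L) ^ d :=
          Nat.mul_le_mul_left _ (Nat.pow_le_pow_left hN d)
      _ = 2 ^ (3 + L * d) := by rw [pow_add 2 3, pow_mul]; norm_num
      _ ≤ _ := Nat.pow_le_pow_right (by norm_num) (by nlinarith)
  · rw [hC, hw1, wt_pt, ← ha]
    have e : (fun i : S₀ => (u i ^^ x i) ^^ x i) = u := by
      funext i
      cases u i <;> cases x i <;> rfl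
    rw [e]
    omega

/-- explicit lower bound -/
theorem circ_bound {n e s d N v θ : ℕ} (he : 1 ≤ e) (C : Circ p n e s d N) (i₀ : Fin N)
    (hv1 : v ≤ θ) (hv2 : v + θ ≤ n + 1) (hC : ∀ x, C.val i₀ x = true ↔ θ ≤ ones x) :
    v ^ 2 ≤ 243847994572800 * e ^ 2 * (s + 1) *
      (3 * p * (d + 2) * (Nat.log 2 N + Nat.log 2 n + 2)) ^ (4 * d + 4) := by
  obtain ⟨L, hL⟩ : ∃ L, L = Nat.log 2 N + Nat.log 2 n + 2 := ⟨_, rfl⟩
  rw [← hL]
  have hp1 : 1 ≤ p := (Fact.out : p.Prime).one_le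
  rcases Nat.eq_zero_or_pos v with hv0 | hv0
  · rw [hv0]
    exact Nat.zero_le _
  obtain ⟨w, hw⟩ : ∃ w, w = n - v := ⟨_, rfl⟩
  have hn : n = v + w := by omega
  have hn2 : n < 2 ^ L := by
    have h1 : n < 2 ^ (Nat.log 2 n + 1) := Nat.lt_pow_succ_log_self (by norm_num) n
    exact h1.trans_le (Nat.pow_le_pow_right (by norm_num) (by omega))
  have hN2 : N < 2 ^ L := by
    have h1 : N < 2 ^ (Nat.log 2 N + 1) := Nat.lt_pow_succ_log_self (by norm_num) N
    exact h1.trans_le (Nat.pow_le_pow_right (by norm_num) (by omega))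
  obtain ⟨T, hT⟩ : ∃ T, T = Nat.sqrt s + 1 := ⟨_, rfl⟩
  obtain ⟨D, hD⟩ : ∃ D, D = (3 * p * (d + 2) * L) ^ (d + 1) := ⟨_, rfl⟩
  have hL1 : 1 ≤ L := by omega
  have hD1 : 1 ≤ D := by
    rw [hD]
    exact Nat.one_le_pow _ _ (by positivity)
  have hD' : (p * (3 * L * (d + 2))) ^ (d + 1) = D := by
    rw [hD]
    congr 1
    ring
  have key : v < 1226880 * (T * e) * (8 * D ^ 2 + 1) := by
    have hsT : s ≤ T ^ 2 := by
      rw [hT, sq]
      exact (Nat.lt_succ_sqrt s).le
    subst hn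
    exact circ_lower C i₀ hC hv1 (by omega) (by omega) (by omega) hL1 (by omega) he hsT
      hD'.le
  have hT2 : T ^ 2 ≤ 2 * (s + 1) := by
    have h1 : Nat.sqrt s * Nat.sqrt s ≤ s := Nat.sqrt_le s
    rw [hT]
    nlinarith [sq_nonneg ((Nat.sqrt s : ℤ) - 1), Nat.sqrt_le_self s]
  have h9 : 8 * D ^ 2 + 1 ≤ 9 * D ^ 2 := by
    have : 1 ≤ D ^ 2 := Nat.one_le_pow _ _ hD1
    omega
  have h10 : v ≤ 11041920 * (T * e) * D ^ 2 := by
    calc v ≤ 1226880 * (T * e) * (9 * D ^ 2) := key.le.trans (Nat.mul_le_mul_left _ h9)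
      _ = _ := by ring
  calc v ^ 2 ≤ (11041920 * (T * e) * D ^ 2) ^ 2 := Nat.pow_le_pow_left h10 2
    _ = 11041920 ^ 2 * e ^ 2 * T ^ 2 * D ^ 4 := by ring
    _ ≤ 11041920 ^ 2 * e ^ 2 * (2 * (s + 1)) * D ^ 4 := by gcongr
    _ = 243847994572800 * e ^ 2 * (s + 1) * D ^ 4 := by ring
    _ = _ := by
        rw [hD, ← pow_mul]
        congr 2
        ring

/-- explicit lower bound for majority -/
theorem circ_maj {n e s d N : ℕ} (he : 1 ≤ e) (C : Circ p n e s d N) (i₀ : Fin N)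
    (hC : ∀ x, C.val i₀ x = true ↔ n ≤ 2 * ones x) :
    n ^ 2 ≤ 10 ^ 15 * e ^ 2 * (s + 1) *
      (3 * p * (d + 2) * (Nat.log 2 N + Nat.log 2 n + 2)) ^ (4 * d + 4) := by
  have h1 := circ_bound (v := (n + 1) / 2) (θ := (n + 1) / 2) he C i₀ le_rfl (by omega)
    fun x => by rw [hC]; omega
  have h2 : n ≤ 2 * ((n + 1) / 2) := by omega
  obtain ⟨X, hX⟩ : ∃ X, X = e ^ 2 * (s + 1) *
      (3 * p * (d + 2) * (Nat.log 2 N + Nat.log 2 n + 2)) ^ (4 * d + 4) := ⟨_, rfl⟩
  have h3 : 243847994572800 * e ^ 2 * (s + 1) *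
      (3 * p * (d + 2) * (Nat.log 2 N + Nat.log 2 n + 2)) ^ (4 * d + 4)
      = 243847994572800 * X := by rw [hX]; ring
  have h4 : 10 ^ 15 * e ^ 2 * (s + 1) *
      (3 * p * (d + 2) * (Nat.log 2 N + Nat.log 2 n + 2)) ^ (4 * d + 4) = 10 ^ 15 * X := by
    rw [hX]; ring
  rw [h3] at h1
  rw [h4]
  calc n ^ 2 ≤ (2 * ((n + 1) / 2)) ^ 2 := Nat.pow_le_pow_left h2 2
    _ = 4 * ((n + 1) / 2) ^ 2 := by ring
    _ ≤ 4 * (243847994572800 * X) := Nat.mul_le_mul_left _ h1
    _ ≤ 10 ^ 15 * X := by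
        rw [← mul_assoc]
        exact Nat.mul_le_mul_right _ (by norm_num)

end H632.PM
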