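import Pool.Agent.H564R2.QF.Defs

/-!
# De Morgan formulas with bounded blocks of quantifiers, and with a majority quantifier
-/

namespace H632.PM

open Pool.Agent.H564R2.QF (Fml)

/-- Quantifiers: there is one; for all; the number of such objects is congruent to `r`. -/
inductive Quant : Type
  | ex : Quant
  | all : Quant
  | cnt : ℕ → Quant

/-- Truth of a quantified statement. The counting quantifiers count modulo `p`. -/
def Quant.Holds (p : ℕ) {Y : Type} : Quant → (Y → Prop) → Prop
  | .ex, P => ∃ y, P y
  | .all, P => ∀ y, P y
  | .cnt r, P => Nat.card {y // P y} ≡ r [MOD p]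

/-- Predicates of `n` bits defined by the quantifiers in the list, each over a block of `m` bits,
in front of a De Morgan formula with at most `s` leaves in the `n` input bits and all the
quantified bits. -/
def Lev (p : ℕ) : List Quant → (m s n : ℕ) → Set ((Fin n → Bool) → Prop)
  | [], _, s, n => {f | ∃ φ : Fml (Fin n), φ.size ≤ s ∧ ∀ x, f x ↔ φ.eval x = true}
  | q :: l, m, s, n =>
      {f | ∃ g ∈ Lev p l m s (n + m), ∀ x,
        f x ↔ q.Holds p fun y : Fin m → Bool => g (Fin.append x y)}

/-- Predicates of `n` bits which say that a De Morgan formula with at most `s` leaves in the `n`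
input bits and `m` further bits is true for more than half of the values of these further bits. -/
def PPmode (m s n : ℕ) : Set ((Fin n → Bool) → Prop) :=
  {f | ∃ φ : Fml (Fin (n + m)), φ.size ≤ s ∧ ∀ x,
    f x ↔ 2 ^ m < 2 * Nat.card {y : Fin m → Bool // φ.eval (Fin.append x y) = true}}

/-- The class `PP` for formulas of size `O(s(n))` with `O(m(n))` quantified bits. -/
def PPclass (m s : ℕ → ℕ) : Set (∀ n : ℕ, (Fin n → Bool) → Prop) :=
  {f | ∃ c : ℕ, ∀ n, f n ∈ PPmode (c * m n) (c * s n) n}

/-- The polynomial hierarchy with counting quantifiers modulo `p`, for formulas of size `O(s(n))`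
with a bounded number of blocks of `O(m(n))` quantified bits. -/
def PHclass (p : ℕ) (m s : ℕ → ℕ) : Set (∀ n : ℕ, (Fin n → Bool) → Prop) :=
  {f | ∃ k c : ℕ, ∀ n, ∃ l : List Quant, l.length = k ∧ f n ∈ Lev p l (c * m n) (c * s n) n}

/-- The number of ones. -/
def ones {n : ℕ} (x : Fin n → Bool) : ℕ := (Finset.univ.filter fun i => x i = true).card

end H632.PM
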