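import Pool.Agent.H632R2.PM.Defs

/-!
# Upper bound: majority with a majority quantifier
-/

namespace H632.PM

open Pool.Agent.H564R2.QF (Fml)

/-- decision tree reading the bits `vars` with the formulas `leaf` at its leaves -/
def mux {V : Type} : (L : ℕ) → ((Fin L → Bool) → Fml V) → (Fin L → V) → Fml V
  | 0, leaf, _ => leaf Fin.elim0
  | L + 1, leaf, vars =>
      .or (.and (.var (vars 0)) (mux L (fun y => leaf (Fin.cons true y)) (Fin.tail vars)))
        (.and (.neg (.var (vars 0))) (mux L (fun y => leaf (Fin.cons false y)) (Fin.tail vars)))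

theorem mux_eval {V : Type} (L : ℕ) (leaf : (Fin L → Bool) → Fml V) (vars : Fin L → V)
    (z : V → Bool) : (mux L leaf vars).eval z = (leaf fun i => z (vars i)).eval z := by
  induction L with
  | zero =>
    unfold mux
    congr 2
    funext i
    exact i.elim0
  | succ L ih =>
    unfold mux
    simp only [Fml.eval]
    rw [ih, ih]
    have e : (fun i => z (vars i)) = (Fin.cons (z (vars 0)) fun i => z (Fin.tail vars i) :
        Fin (L + 1) → Bool) := by
      funext i
      refine Fin.cases ?_ (fun j => ?_) i
      · rw [Fin.cons_zero]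
      · rw [Fin.cons_succ]; rfl
    rw [e]
    cases z (vars 0) <;> simp

theorem mux_size {V : Type} (L : ℕ) (leaf : (Fin L → Bool) → Fml V) (vars : Fin L → V)
    (h : ∀ y, (leaf y).size ≤ 1) : (mux L leaf vars).size + 2 ≤ 3 * 2 ^ L := by
  induction L with
  | zero =>
    unfold mux
    have := h Fin.elim0
    omega
  | succ L ih =>
    unfold mux
    simp only [Fml.size]
    have h1 := ih (fun y => leaf (Fin.cons true y)) (Fin.tail vars) fun y => h _
    have h2 := ih (fun y => leaf (Fin.cons false y)) (Fin.tail vars) fun y => h _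
    rw [pow_succ]
    omega

theorem ones_append' {v w : ℕ} (z : Fin v → Bool) (y : Fin w → Bool) :
    ones (Fin.append z y) = ones z + ones y := by
  unfold ones
  rw [Finset.card_filter, Finset.card_filter, Finset.card_filter, Fin.sum_univ_add]
  congr 1
  · refine Finset.sum_congr rfl fun i _ => ?_
    rw [Fin.append_left]
  · refine Finset.sum_congr rfl fun i _ => ?_
    rw [Fin.append_right]

theorem ones_pad' {w c : ℕ} (h : c ≤ w) : ones (fun j : Fin w => decide ((j : ℕ) < c)) = c := by
  unfold ones
  rw [Finset.card_filter]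
  have h1 : (∑ j : Fin w, if decide ((j : ℕ) < c) = true then 1 else 0)
      = ∑ j ∈ Finset.range w, if j < c then 1 else 0 := by
    rw [← Fin.sum_univ_eq_sum_range (fun j => if j < c then 1 else 0) w]
    refine Finset.sum_congr rfl fun j _ => ?_
    simp
  rw [h1, ← Finset.card_filter]
  have h2 : (Finset.range w).filter (fun j => j < c) = Finset.range c := by
    ext j
    rw [Finset.mem_filter, Finset.mem_range, Finset.mem_range]
    omega
  rw [h2, Finset.card_range]

theorem card_ones {n : ℕ} (x : Fin n → Bool) : Nat.card {i // x i = true} = ones x := by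
  unfold ones
  rw [Nat.card_eq_fintype_card, Fintype.card_subtype]

/-- ignoring further bits -/
theorem card_ext {L e : ℕ} (Q : (Fin L → Bool) → Prop) :
    Nat.card {y : Fin (L + e) → Bool // Q fun i => y (Fin.castAdd e i)}
      = Nat.card {y : Fin L → Bool // Q y} * 2 ^ e := by
  have h1 : {y : Fin (L + e) → Bool // Q fun i => y (Fin.castAdd e i)}
      ≃ {y : Fin L → Bool // Q y} × (Fin e → Bool) :=
    { toFun := fun y => (⟨fun i => y.1 (Fin.castAdd e i), y.2⟩, fun j => y.1 (Fin.natAdd L j))
      invFun := fun y => ⟨Fin.append y.1.1 y.2, by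
        have h2 : (fun i => Fin.append y.1.1 y.2 (Fin.castAdd e i)) = y.1.1 := by
          funext i; rw [Fin.append_left]
        rw [h2]
        exact y.1.2⟩
      left_inv := fun y => Subtype.ext (Fin.append_castAdd_natAdd)
      right_inv := fun y => by
        refine Prod.ext (Subtype.ext ?_) ?_
        · funext i
          exact Fin.append_left _ _ i
        · funext j
          exact Fin.append_right _ _ j }
  rw [Nat.card_congr h1, Nat.card_prod]
  congr 1
  rw [Nat.card_eq_fintype_card, Fintype.card_fun, Fintype.card_bool, Fintype.card_fin]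

theorem PPmode_mono {m s t n : ℕ} (h : s ≤ t) : PPmode m s n ⊆ PPmode m t n := by
  rintro f ⟨φ, h1, h2⟩
  exact ⟨φ, h1.trans h, h2⟩

/-- Majority of `n` bits: more than half of the leaves of a tree are true. -/
theorem maj_upper {n m : ℕ} (h : n < 2 ^ m) :
    (fun x : Fin n → Bool => n < 2 * ones x) ∈ PPmode m (6 * n) n := by
  rcases Nat.eq_zero_or_pos n with rfl | hn
  · refine ⟨.const false, le_refl _, fun x => ?_⟩
    have h1 : ones x = 0 := by
      unfold ones
      simp
    simp [h1, Fml.eval]
  obtain ⟨L, hL⟩ : ∃ L, L = Nat.log 2 n := ⟨_, rfl⟩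
  have h1 : n < 2 ^ (L + 1) := by rw [hL]; exact Nat.lt_pow_succ_log_self (by norm_num) n
  have h2 : 2 ^ L ≤ n := by rw [hL]; exact Nat.pow_log_le_self 2 (by omega)
  have h3 : L + 1 ≤ m := by
    have : 2 ^ L < 2 ^ m := lt_of_le_of_lt h2 h
    exact (Nat.pow_lt_pow_iff_right (by norm_num)).1 this
  obtain ⟨e, rfl⟩ := Nat.exists_eq_add_of_le h3
  have h4 : 2 ^ (L + 1) = 2 * 2 ^ L := by rw [pow_succ]; ring
  obtain ⟨w, hw⟩ := Nat.exists_eq_add_of_le h1.le
  have hcard : Fintype.card (Fin (L + 1) → Bool) = n + w := by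
    rw [Fintype.card_fun, Fintype.card_bool, Fintype.card_fin, hw]
  obtain ⟨eq⟩ : Nonempty ((Fin (L + 1) → Bool) ≃ Fin (n + w)) :=
    ⟨Fintype.equivFinOfCardEq hcard⟩
  obtain ⟨K, hK⟩ : ∃ K, K = 2 ^ L - n / 2 := ⟨_, rfl⟩
  have hKw : K ≤ w := by omega
  set leaf : (Fin (L + 1) → Bool) → Fml (Fin (n + (L + 1 + e))) := fun y =>
    Fin.addCases (motive := fun _ => Fml (Fin (n + (L + 1 + e))))
      (fun i : Fin n => .var (Fin.castAdd _ i))
      (fun j : Fin w => .const (decide ((j : ℕ) < K))) (eq y) with hleaf
  have hleaf1 : ∀ y, (leaf y).size ≤ 1 := by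
    intro y
    rw [hleaf]
    beta_reduce
    generalize eq y = j
    refine Fin.addCases (fun i => ?_) (fun i => ?_) j
    · rw [Fin.addCases_left]; exact le_refl _
    · rw [Fin.addCases_right]; exact Nat.zero_le _
  have hleaf2 : ∀ (x : Fin n → Bool) (y' : Fin (L + 1 + e) → Bool) (y : Fin (L + 1) → Bool),
      (leaf y).eval (Fin.append x y')
        = Fin.append x (fun j : Fin w => decide ((j : ℕ) < K)) (eq y) := by
    intro x y' y
    rw [hleaf]
    beta_reduce
    generalize eq y = j
    refine Fin.addCases (fun i => ?_) (fun i => ?_) j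
    · rw [Fin.addCases_left, Fin.append_left]
      simp only [Fml.eval]
      rw [Fin.append_left]
    · rw [Fin.addCases_right, Fin.append_right]
      rfl
  refine ⟨mux (L + 1) leaf fun i => Fin.natAdd n (Fin.castAdd e i), ?_, fun x => ?_⟩
  · have := mux_size (L + 1) leaf (fun i => Fin.natAdd n (Fin.castAdd e i)) hleaf1
    omega
  · have h5 : ∀ y : Fin (L + 1 + e) → Bool,
        (mux (L + 1) leaf fun i => Fin.natAdd n (Fin.castAdd e i)).eval (Fin.append x y)
          = Fin.append x (fun j : Fin w => decide ((j : ℕ) < K))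
            (eq fun i => y (Fin.castAdd e i)) := by
      intro y
      rw [mux_eval, hleaf2]
      congr 2
      funext i
      rw [Fin.append_right]
    simp only [h5]
    rw [card_ext (e := e) fun y : Fin (L + 1) → Bool =>
      Fin.append x (fun j : Fin w => decide ((j : ℕ) < K)) (eq y) = true]
    have h6 : Nat.card {y : Fin (L + 1) → Bool //
        Fin.append x (fun j : Fin w => decide ((j : ℕ) < K)) (eq y) = true} = ones x + K := by
      rw [Nat.card_congr (Equiv.subtypeEquiv eq (q := fun j =>
        Fin.append x (fun j : Fin w => decide ((j : ℕ) < K)) j = true) fun y => Iff.rfl),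
        card_ones, ones_append', ones_pad' hKw]
    rw [h6, pow_add 2 (L + 1) e, ← mul_assoc,
      Nat.mul_lt_mul_right (by positivity : 0 < 2 ^ e)]
    omega

end H632.PM
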