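import Pool.Agent.H632R2.PM.Low
import Pool.Agent.H632R2.PM.Up

/-!
# Final statements
-/

namespace H632.PM

/-- explicit lower bound -/
theorem maj_bound (p : ℕ) (hp : p.Prime) (l : List Quant) (m s n : ℕ)
    (hf : (fun x : Fin n → Bool => n < 2 * ones x) ∈ Lev p l m s n) :
    n ^ 2 ≤ 10 ^ 15 * (s + 1) *
      (3 * p * (l.length + 2) * (m + Nat.log 2 n + 1)) ^ (4 * l.length + 4) := by
  have : Fact p.Prime := ⟨hp⟩
  obtain ⟨k, hl⟩ : ∃ k, k = l.length := ⟨_, rfl⟩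
  rw [← hl]
  obtain ⟨L, hL⟩ : ∃ L, L = m + Nat.log 2 n + 1 := ⟨_, rfl⟩
  rw [← hL]
  obtain ⟨v, hv⟩ : ∃ v, v = n / 2 := ⟨_, rfl⟩
  obtain ⟨w, hw⟩ : ∃ w, w = n - n / 2 := ⟨_, rfl⟩
  have hn : n = v + w := by omega
  have hn2 : n < 2 ^ L := by
    have h1 : n < 2 ^ (Nat.log 2 n + 1) := Nat.lt_pow_succ_log_self (by norm_num) n
    exact h1.trans_le (Nat.pow_le_pow_right (by norm_num) (by omega))
  obtain ⟨T, hT⟩ : ∃ T, T = Nat.sqrt s + 1 := ⟨_, rfl⟩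
  obtain ⟨D, hD⟩ : ∃ D, D = (3 * p * (k + 2) * L) ^ (k + 1) := ⟨_, rfl⟩
  have hp1 : 1 ≤ p := hp.one_le
  have hL1 : 1 ≤ L := by omega
  have hD1 : 1 ≤ D := by
    rw [hD]
    exact Nat.one_le_pow _ _ (by positivity)
  have hD' : (p * (3 * L * (l.length + 2))) ^ (l.length + 1) = D := by
    rw [← hl, hD]
    congr 1
    ring
  have key : v < 1226880 * T * (8 * D ^ 2 + 1) := by
    have hsT : s ≤ T ^ 2 := by
      rw [hT, sq]
      exact (Nat.lt_succ_sqrt s).le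
    subst hn
    exact maj_lower hf (by omega) (by omega) (by omega) (by omega) hL1 (by omega) hsT hD'.le
  have hT2 : T ^ 2 ≤ 2 * (s + 1) := by
    have h1 : Nat.sqrt s * Nat.sqrt s ≤ s := Nat.sqrt_le s
    rw [hT]
    nlinarith [sq_nonneg ((Nat.sqrt s : ℤ) - 1), Nat.sqrt_le_self s]
  have h9 : 8 * D ^ 2 + 1 ≤ 9 * D ^ 2 := by
    have : 1 ≤ D ^ 2 := Nat.one_le_pow _ _ hD1
    omega
  have h10 : n ≤ 22083840 * T * D ^ 2 := by
    have h11 : v + 1 ≤ 1226880 * T * (9 * D ^ 2) :=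
      Nat.succ_le_of_lt (key.trans_le (Nat.mul_le_mul_left _ h9))
    calc n ≤ 2 * (v + 1) := by omega
      _ ≤ 2 * (1226880 * T * (9 * D ^ 2)) := Nat.mul_le_mul_left _ h11
      _ = _ := by ring
  calc n ^ 2 ≤ (22083840 * T * D ^ 2) ^ 2 := Nat.pow_le_pow_left h10 2
    _ = 22083840 ^ 2 * T ^ 2 * D ^ 4 := by ring
    _ ≤ 22083840 ^ 2 * (2 * (s + 1)) * D ^ 4 := by gcongr
    _ = 975391978291200 * (s + 1) * D ^ 4 := by ring
    _ ≤ 10 ^ 15 * (s + 1) * D ^ 4 := by gcongr; norm_num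
    _ = _ := by
        rw [hD, ← pow_mul]
        congr 2
        ring

open Filter

/-- separation of the classes -/
theorem classes :
    (fun (n : ℕ) (x : Fin n → Bool) => n < 2 * ones x)
      ∈ PPclass (fun n => Nat.log 2 n + 1) (fun n => n) ∧
    ∀ m s : ℕ → ℕ, (∀ K : ℕ, ∀ᶠ n in atTop, (s n + 1) * (m n + Nat.log 2 n) ^ K ≤ n ^ 2) →
      ∀ p : ℕ, p.Prime →
        (fun (n : ℕ) (x : Fin n → Bool) => n < 2 * ones x) ∉ PHclass p m s := by
  constructor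
  · refine ⟨6, fun n => maj_upper ?_⟩
    have h1 : n < 2 ^ (Nat.log 2 n + 1) := Nat.lt_pow_succ_log_self (by norm_num) n
    refine h1.trans_le (Nat.pow_le_pow_right (by norm_num) ?_)
    beta_reduce
    omega
  · rintro m s hK p hp ⟨k, c, hc⟩
    obtain ⟨n₀, hn₀⟩ := eventually_atTop.1 (hK (4 * k + 5))
    -- a large `n`
    obtain ⟨A, hA⟩ : ∃ A, A = 10 ^ 15 * (c + 1) * (3 * p * (k + 2) * (c + 2)) ^ (4 * k + 4) :=
      ⟨_, rfl⟩
    obtain ⟨n, hn⟩ : ∃ n, n = n₀ + 2 ^ (A + 1) := ⟨_, rfl⟩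
    have hpos : 0 < 2 ^ (A + 1) := by positivity
    obtain ⟨l, hl, hf⟩ := hc n
    have h1 := maj_bound p hp l _ _ _ hf
    rw [hl] at h1
    have h2 := hn₀ n (by omega)
    have hn1 : 2 ^ (A + 1) ≤ n := by omega
    have hlog : A + 1 ≤ Nat.log 2 n := by
      have hpos : n ≠ 0 := by
        have : 0 < 2 ^ (A + 1) := by positivity
        omega
      exact (Nat.le_log_iff_pow_le (by norm_num) hpos).2 hn1
    obtain ⟨q, hq⟩ : ∃ q, q = m n + Nat.log 2 n := ⟨_, rfl⟩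
    have hqA : A + 1 ≤ q := by omega
    rw [← hq] at h2
    have h6 : c * s n + 1 ≤ (c + 1) * (s n + 1) := by nlinarith
    have h7 : c * m n + Nat.log 2 n + 1 ≤ (c + 2) * q := by
      rw [hq]
      nlinarith [Nat.zero_le (m n), Nat.zero_le (c * Nat.log 2 n)]
    have h8 : n ^ 2 ≤ A * ((s n + 1) * q ^ (4 * k + 4)) := by
      calc n ^ 2 ≤ 10 ^ 15 * (c * s n + 1) *
            (3 * p * (k + 2) * (c * m n + Nat.log 2 n + 1)) ^ (4 * k + 4) := h1
        _ ≤ 10 ^ 15 * ((c + 1) * (s n + 1)) * (3 * p * (k + 2) * ((c + 2) * q)) ^ (4 * k + 4) := by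
            gcongr
        _ = 10 ^ 15 * ((c + 1) * (s n + 1)) * ((3 * p * (k + 2) * (c + 2)) * q) ^ (4 * k + 4) := by
            rw [← mul_assoc (3 * p * (k + 2)) (c + 2) q]
        _ = _ := by rw [hA, mul_pow]; ring
    have hn2 : 0 < n ^ 2 := by
      have : 0 < 2 ^ (A + 1) := by positivity
      have : 0 < n := by omega
      positivity
    have h9 : n ^ 2 * q ≤ n ^ 2 * A := by
      calc n ^ 2 * q ≤ A * ((s n + 1) * q ^ (4 * k + 4)) * q := Nat.mul_le_mul_right _ h8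
        _ = A * ((s n + 1) * q ^ (4 * k + 5)) := by rw [pow_succ]; ring
        _ ≤ A * n ^ 2 := Nat.mul_le_mul_left _ h2
        _ = _ := mul_comm _ _
    have h10 : q ≤ A := Nat.le_of_mul_le_mul_left h9 hn2
    omega

end H632.PM
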