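import Pool.Agent.H632R2.PM.Defs
import Pool.Agent.H599R2.QB.QDefs

/-!
# The classes PP^PH and PSPACE for De Morgan formulas
-/

namespace H632.PM

open Pool.Agent.H564R2.QF (Fml)

open Classical in
/-- The indicator of a proposition: one if it holds, zero otherwise. -/
noncomputable def iR (P : Prop) : ℝ := if P then 1 else 0

/-- The class `PP^PH` for formulas of size `O(s(n))` with `O(m(n))` bits: for more than half of the
`y`, the predicate `g (x, y)` holds, where `g` is given by `k` blocks of quantifiers (there is; for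
all) in front of a formula, for a constant `k`. -/
def PPPHclass (m s : ℕ → ℕ) : Set (∀ n : ℕ, (Fin n → Bool) → Prop) :=
  {f | ∃ k c : ℕ, ∀ n, ∃ l : List Quant, l.length = k ∧ (∀ a, Quant.cnt a ∉ l) ∧
    ∃ g ∈ Lev 2 l (c * m n) (c * s n) (n + c * m n), ∀ x,
      f n x ↔ 2 ^ (c * m n) < 2 * Nat.card {y : Fin (c * m n) → Bool // g (Fin.append x y)}}

/-- The class `PSPACE` for formulas of size `O(s(n))` with `O(m(n))` bits: arbitrarily many
alternating quantifiers. -/
def PSPACEclass (m s : ℕ → ℕ) : Set (∀ n : ℕ, (Fin n → Bool) → Prop) :=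
  {f | ∃ c : ℕ, ∀ n, ∃ b ≤ c * m n, ∃ (q : Fin b → Bool) (φ : Fml (Fin n ⊕ Fin b)),
    φ.size ≤ c * s n ∧ ∀ x, f n x ↔ H599.QB.Quant b q fun y => φ.eval (Sum.elim x y) = true}

end H632.PM
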