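import Pool.Agent.H632R2.PM.PPPH
import Pool.Agent.H599R2.QB.QFml

/-!
# PSPACE is not contained in PP^PH for subquadratic De Morgan formulas
-/

namespace H632.PM

open Finset H599.QB Filter
open Pool.Agent.H564R2.QF (Fml)

theorem parity_pspace : (fun (n : ℕ) (x : Fin n → Bool) => Odd (ones x))
    ∈ PSPACEclass (fun n => Nat.log 2 n + 1) (fun n => n) := by
  refine ⟨28, fun n => ?_⟩
  beta_reduce
  rcases Nat.eq_zero_or_pos n with rfl | hn
  · refine ⟨0, Nat.zero_le _, Fin.elim0, .const false, Nat.zero_le _, fun x => ?_⟩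
    have h1 : ones x = 0 := by
      unfold ones
      simp
    rw [h1]
    change Odd 0 ↔ false = true
    simp
  · obtain ⟨b, q, φ, h1, h2, h3⟩ := alternating n hn
    refine ⟨b, h1.trans ?_, q, φ, h2, h3⟩
    have h4 : Nat.clog 2 n ≤ Nat.log 2 n + 1 :=
      Nat.clog_le_of_le_pow (Nat.lt_pow_succ_log_self (by norm_num) n).le
    omega

theorem parity_not_ppph (m s : ℕ → ℕ)
    (hK : ∀ K : ℕ, ∀ᶠ n in atTop, (s n + 1) * (m n + Nat.log 2 n) ^ K ≤ n ^ 2) :
    (fun (n : ℕ) (x : Fin n → Bool) => Odd (ones x)) ∉ PPPHclass m s := by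
  classical
  rintro ⟨k, c, hc⟩
  obtain ⟨n₀, hn₀⟩ := eventually_atTop.1 (hK (8 * k + 5))
  obtain ⟨A, hA⟩ : ∃ A, A = 243847994572800 * (c + 1) * (16 * (k + 1)) ^ (4 * k + 4)
    * (c + 1) ^ (8 * k + 4) := ⟨_, rfl⟩
  obtain ⟨n, hn⟩ : ∃ n, n = n₀ + 2 ^ (A + 1) := ⟨_, rfl⟩
  have hpos : 0 < 2 ^ (A + 1) := by positivity
  obtain ⟨l, hl, hl', g, hg, hf⟩ := hc n
  have h1 := thr_bound l hl' (c * m n) (c * s n) n g hg (fun _ => 1) (2 ^ (c * m n) / 2)
    (fun x => by
      refine (hf x).trans ?_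
      have h2 : ∑ y : Fin (c * m n) → Bool, (1 : ℝ) * iR (g (Fin.append x y))
          = Nat.card {y : Fin (c * m n) → Bool // g (Fin.append x y)} := by
        rw [Nat.card_eq_fintype_card, Fintype.card_subtype, Finset.card_filter]
        push_cast
        refine Finset.sum_congr rfl fun y _ => ?_
        rw [one_mul]
        by_cases h : g (Fin.append x y)
        · rw [iR_true h, if_pos h]
        · rw [iR_false h, if_neg h]
      rw [h2, div_lt_iff₀ (by norm_num : (0 : ℝ) < 2)]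
      constructor
      · intro h3
        have : ((2 ^ (c * m n) : ℕ) : ℝ) < ((2 * Nat.card {y : Fin (c * m n) → Bool //
          g (Fin.append x y)} : ℕ) : ℝ) := by exact_mod_cast h3
        push_cast at this
        linarith
      · intro h3
        have : ((2 ^ (c * m n) : ℕ) : ℝ) < ((2 * Nat.card {y : Fin (c * m n) → Bool //
          g (Fin.append x y)} : ℕ) : ℝ) := by
          push_cast
          linarith
        exact_mod_cast this)
  rw [hl] at h1
  have h2 := hn₀ n (by omega)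
  have hn1 : 2 ^ (A + 1) ≤ n := by omega
  have hlog : A + 1 ≤ Nat.log 2 n :=
    (Nat.le_log_iff_pow_le (by norm_num) (by omega)).2 hn1
  obtain ⟨q, hq⟩ : ∃ q, q = m n + Nat.log 2 n := ⟨_, rfl⟩
  have hqA : A + 1 ≤ q := by omega
  rw [← hq] at h2
  have h6 : c * s n + 1 ≤ (c + 1) * (s n + 1) := by nlinarith
  have h7 : c * m n + 1 ≤ (c + 1) * q := by
    rw [hq]
    nlinarith [Nat.zero_le (m n), Nat.zero_le (c * Nat.log 2 n)]
  have h8 : n ^ 2 ≤ A * ((s n + 1) * q ^ (8 * k + 4)) := by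
    calc n ^ 2 ≤ 243847994572800 * (c * s n + 1) * (16 * (k + 1)) ^ (4 * k + 4)
          * (c * m n + 1) ^ (8 * k + 4) := h1
      _ ≤ 243847994572800 * ((c + 1) * (s n + 1)) * (16 * (k + 1)) ^ (4 * k + 4)
          * ((c + 1) * q) ^ (8 * k + 4) := by gcongr
      _ = _ := by
          rw [hA, mul_pow (c + 1) q (8 * k + 4)]
          generalize (16 * (k + 1)) ^ (4 * k + 4) = B
          ring
  have hn2 : 0 < n ^ 2 := by
    have : 0 < n := by omega
    positivity
  have h9 : n ^ 2 * q ≤ n ^ 2 * A := by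
    calc n ^ 2 * q ≤ A * ((s n + 1) * q ^ (8 * k + 4)) * q := Nat.mul_le_mul_right _ h8
      _ = A * ((s n + 1) * q ^ (8 * k + 5)) := by rw [pow_succ]; ring
      _ ≤ A * n ^ 2 := Nat.mul_le_mul_left _ h2
      _ = _ := mul_comm _ _
  have h10 : q ≤ A := Nat.le_of_mul_le_mul_left h9 hn2
  omega

end H632.PM
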