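import Pool.Agent.H632R2.PM.Vote
import Pool.Agent.H632R2.PM.PDefs
import Pool.Agent.H599R2.QB.QFml2

/-!
# Parity is not a weighted threshold of PH-type predicates over subquadratic formulas
-/

set_option linter.unusedSectionVars false

namespace H632.PM

open Finset H599.QB
open H599.PH (Coord Good restrict ind)
open Pool.Agent.H564R2.QF (Fml LowDeg)

section real

variable {W : Type} [Fintype W] [DecidableEq W]

/-- Moebius inversion over the subsets of a finite set -/
theorem moebius_real (G : Finset W → ℝ) (U : Finset W) :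
    ∑ S ∈ U.powerset, (-1) ^ S.card * ∑ U' ∈ S.powerset, (-1) ^ U'.card * G U' = G U := by
  induction U using Finset.induction_on generalizing G with
  | empty => simp
  | insert a U ha ih =>
    have hin : ∀ F : Finset W → ℝ, ∀ S : Finset W, a ∉ S →
        ∑ U' ∈ (insert a S).powerset, F U'
          = ∑ U' ∈ S.powerset, F U' + ∑ U' ∈ S.powerset, F (insert a U') := fun F S hS =>
      Finset.sum_powerset_insert hS F
    rw [hin _ U ha]
    have h1 : ∀ S ∈ U.powerset, (-1 : ℝ) ^ (insert a S).card *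
        ∑ U' ∈ (insert a S).powerset, (-1) ^ U'.card * G U'
        = - ((-1) ^ S.card * ∑ U' ∈ S.powerset, (-1) ^ U'.card * G U')
          + (-1) ^ S.card * ∑ U' ∈ S.powerset, (-1) ^ U'.card * G (insert a U') := by
      intro S hS
      have haS : a ∉ S := fun h => ha (Finset.mem_powerset.1 hS h)
      rw [hin _ S haS, Finset.card_insert_of_notMem haS, pow_succ]
      have h2 : ∑ U' ∈ S.powerset, (-1 : ℝ) ^ (insert a U').card * G (insert a U')
          = - ∑ U' ∈ S.powerset, (-1) ^ U'.card * G (insert a U') := by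
        rw [← Finset.sum_neg_distrib]
        refine Finset.sum_congr rfl fun U' hU' => ?_
        have haU : a ∉ U' := fun h => haS (Finset.mem_powerset.1 hU' h)
        rw [Finset.card_insert_of_notMem haU, pow_succ]
        ring
      rw [h2]; ring
    rw [Finset.sum_congr rfl h1, Finset.sum_add_distrib, Finset.sum_neg_distrib]
    have h3 := ih fun U' => G (insert a U')
    beta_reduce at h3
    rw [h3]; ring

/-- the indicator of a bit has degree one -/
theorem bit_mem (i : W) : (fun x : W → Bool => if x i = true then (1 : ℝ) else 0) ∈ Deg W 1 := by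
  have e : (fun x : W → Bool => if x i = true then (1 : ℝ) else 0)
      = (fun _ => (1 / 2 : ℝ)) + (-1 / 2 : ℝ) • fun x : W → Bool => sg (x i) := by
    funext x
    simp only [Pi.add_apply, Pi.smul_apply, smul_eq_mul]
    cases x i <;> simp [sg] <;> norm_num
  rw [e]
  exact Submodule.add_mem _ (const_mem _ _) (Submodule.smul_mem _ _ (coord_mem _))

/-- A real function on the cube all of whose alternating sums over sets of size more than `t` at
the origin vanish has degree at most `t`. -/
theorem mem_of_alt_real {t : ℕ} (G : (W → Bool) → ℝ)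
    (h : ∀ S : Finset W, t < S.card →
      ∑ U ∈ S.powerset, (-1) ^ U.card * G (fun w => decide (w ∈ U)) = 0) : G ∈ Deg W t := by
  set A : Finset W → ℝ := fun S =>
    (-1) ^ S.card * ∑ U ∈ S.powerset, (-1) ^ U.card * G (fun w => decide (w ∈ U)) with hA
  have key : G = fun u => ∑ S ∈ (Finset.univ : Finset (Finset W)).filter (fun S => S.card ≤ t),
      A S * ∏ w ∈ S, (if u w = true then (1 : ℝ) else 0) := by
    funext u
    have h1 := moebius_real (fun U => G (fun w => decide (w ∈ U)))
      (Finset.univ.filter fun w => u w = true)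
    have h2 : (fun w => decide (w ∈ Finset.univ.filter fun w => u w = true)) = u := by
      funext w
      cases hw : u w <;> simp [hw]
    beta_reduce at h1
    rw [h2] at h1
    rw [← h1]
    have h3 : ∀ S : Finset W, A S * ∏ w ∈ S, (if u w = true then (1 : ℝ) else 0)
        = if S ⊆ Finset.univ.filter (fun w => u w = true) then A S else 0 := by
      intro S
      split_ifs with hS
      · rw [Finset.prod_eq_one, mul_one]
        intro w hw
        exact if_pos (Finset.mem_filter.1 (hS hw)).2
      · obtain ⟨w, hw, hw'⟩ := Finset.not_subset.1 hS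
        rw [Finset.prod_eq_zero hw, mul_zero]
        refine if_neg fun h => hw' (Finset.mem_filter.2 ⟨Finset.mem_univ _, h⟩)
    rw [Finset.sum_congr rfl fun S _ => h3 S, ← Finset.sum_filter, Finset.filter_filter]
    symm
    refine Finset.sum_subset ?_ ?_
    · intro S hS
      exact Finset.mem_powerset.2 (Finset.mem_filter.1 hS).2.2
    · intro S hS hS'
      have hcard : t < S.card := by
        by_contra hcon
        exact hS' (Finset.mem_filter.2 ⟨Finset.mem_univ _, by omega, Finset.mem_powerset.1 hS⟩)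
      rw [hA]
      beta_reduce
      rw [h S hcard, mul_zero]
  rw [key]
  refine sum_mem' _ _ fun S hS => ?_
  have h4 := prod_mem S 1 (fun w (x : W → Bool) => if x w = true then (1 : ℝ) else 0)
    fun w _ => bit_mem w
  rw [mul_one] at h4
  exact Submodule.smul_mem _ (A S) (Deg.mono (Finset.mem_filter.1 hS).2 h4)

end real

section general

variable {V : Type} [Fintype V] [DecidableEq V]

/-- restriction to a subcube: functions whose large alternating sums vanish have low degree -/
theorem sub_mem_real {t : ℕ} {S₀ : Finset V} {x : V → Bool} {g : (V → Bool) → Bool}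
    (h : ∀ S ⊆ S₀, t < S.card → alt S (ind g) x = 0) :
    (fun u : S₀ → Bool => iR (g (pt x u) = true)) ∈ Deg S₀ t := by
  classical
  refine mem_of_alt_real _ fun S hS => ?_
  have hinj : Function.Injective (Subtype.val : S₀ → V) := Subtype.val_injective
  have h1 := h (S.image Subtype.val) (by
    intro v hv
    obtain ⟨w, _, rfl⟩ := Finset.mem_image.1 hv
    exact w.2) (by rw [Finset.card_image_of_injective _ hinj]; exact hS)
  unfold alt at h1
  rw [Finset.powerset_image, Finset.sum_image (fun a _ b _ hab =>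
    Finset.image_injective hinj hab)] at h1
  rw [← h1]
  refine Finset.sum_congr rfl fun U _ => ?_
  rw [Finset.card_image_of_injective _ hinj]
  congr 1
  have h5 : (Finset.univ.filter fun w : S₀ => decide (w ∈ U) = true) = U := by
    ext w; simp
  unfold pt ind
  rw [h5]
  by_cases hg : g (flip (U.image Subtype.val) x) = true
  · rw [iR_true hg, if_pos hg]
  · rw [iR_false hg, if_neg hg]

/-- parity on the subcube -/
theorem chi_pt {S₀ : Finset V} (x : V → Bool) (u : S₀ → Bool) :
    chi univ (pt x u) = chi univ u * chi univ x := by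
  unfold pt
  rw [chi_flip, prod_ite_comm]
  congr 1
  simp only [Finset.mem_univ, if_true, Finset.prod_const]
  rw [Finset.card_image_of_injective _ Subtype.val_injective]
  unfold chi
  rw [← Finset.prod_const, Finset.prod_filter]
  refine Finset.prod_congr rfl fun i _ => ?_
  unfold sg
  rfl

/-- a strictly separating threshold -/
theorem strict_threshold {X : Type} [Fintype X] (v : X → ℝ) (θ : ℝ) :
    ∃ θ', θ < θ' ∧ ∀ x, θ < v x → θ' < v x := by
  classical
  by_cases h : (univ.filter fun x => θ < v x).Nonempty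
  · obtain ⟨x₀, hx₀, hmin⟩ := Finset.exists_min_image _ v h
    have h0 := (Finset.mem_filter.1 hx₀).2
    refine ⟨(θ + v x₀) / 2, by linarith, fun x hx => ?_⟩
    have := hmin x (Finset.mem_filter.2 ⟨Finset.mem_univ _, hx⟩)
    linarith
  · rw [Finset.not_nonempty_iff_eq_empty, Finset.filter_eq_empty_iff] at h
    exact ⟨θ + 1, by linarith, fun x hx => absurd hx (h (Finset.mem_univ x))⟩

/-- Main lower bound. -/
theorem thr_core {p m s k T D : ℕ} {Y : Type} [Fintype Y] (hY : Fintype.card Y ≤ 2 ^ m)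
    (l : Y → List Quant) (hl : ∀ y, (l y).length = k) (hl' : ∀ y a, Quant.cnt a ∉ l y)
    (P : ∀ y, (Fin (l y).length → Fin m → Bool) → (V → Bool) → Bool)
    (hP : ∀ y ys, Good s (P y ys)) (a : Y → ℝ) (θ : ℝ)
    (hpar : ∀ x, chi univ x = -1 ↔ θ < ∑ y, a y * iR (qev p m (l y) fun ys => P y ys x = true))
    (hT : 1 ≤ T) (hs : s ≤ T ^ 2)
    (hD : (16 * (k + 1)) ^ (k + 1) * (m + 1) ^ (2 * k + 1) ≤ D) :
    Fintype.card V < 1226880 * T * (8 * D ^ 2 + 1) := by
  classical
  by_contra hcon
  rw [not_lt] at hcon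
  obtain ⟨S₀, hS₀, x, hx⟩ := restrict
    (fun i : (Σ y, (Fin (l y).length → Fin m → Bool)) => P i.1 i.2)
    (t := (m + 1) * (k + 1)) (T := T) (M := 8 * D ^ 2 + 1) (Nat.succ_pos _) hT
    (fun i j _ => (hP i.1 i.2).approx hT (hs.trans (Nat.le_mul_of_pos_left _ (Nat.succ_pos j))))
    hcon (by
      rw [Fintype.card_sigma]
      have h1 : ∀ y, Fintype.card (Fin (l y).length → Fin m → Bool) = 2 ^ (m * k) := by
        intro y
        rw [Fintype.card_fun, Fintype.card_fun, Fintype.card_bool, Fintype.card_fin,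
          Fintype.card_fin, ← pow_mul, hl]
      rw [Finset.sum_congr rfl fun y _ => h1 y, Finset.sum_const, Finset.card_univ, smul_eq_mul,
        show (4 : ℕ) = 2 ^ 2 from rfl, ← pow_mul]
      calc 2 * (Fintype.card Y * 2 ^ (m * k)) ≤ 2 * (2 ^ m * 2 ^ (m * k)) :=
            Nat.mul_le_mul_left _ (Nat.mul_le_mul_right _ hY)
        _ = 2 ^ (1 + m + m * k) := by rw [pow_add 2 (1 + m), pow_add 2 1]; ring
        _ ≤ _ := Nat.pow_le_pow_right (by norm_num) (by nlinarith))
  obtain ⟨r, hr⟩ : ∃ r, r = (m + 1) * (k + 1) + 3 := ⟨_, rfl⟩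
  have h1 := fun y : Y => real_qev (p := p) (W := S₀) (m := m) (t := (m + 1) * (k + 1)) (r := r)
    (l y) (hl' y) (fun ys u => P y ys (pt x u) = true)
    (fun ys => sub_mem_real fun S hS hS' => hx ⟨y, ys⟩ S hS hS')
  choose q hq E hE hc using h1
  obtain ⟨θ', hθ', hstr⟩ := strict_threshold
    (fun x => ∑ y, a y * iR (qev p m (l y) fun ys => P y ys x = true)) θ
  have hval : ∀ u ∉ univ.biUnion E, ∑ y, a y * q y u
      = ∑ y, a y * iR (qev p m (l y) fun ys => P y ys (pt x u) = true) := by
    intro u hu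
    rw [Finset.mem_biUnion] at hu
    refine Finset.sum_congr rfl fun y _ => ?_
    rw [hE y u fun h => hu ⟨y, Finset.mem_univ y, h⟩]
  have hpm : ∀ {V : Type} [Fintype V] [DecidableEq V] (z : V → Bool),
      chi univ z = 1 ∨ chi univ z = -1 := by
    intro V _ _ z
    have h1 : chi univ z * chi univ z = 1 := by
      rw [chi_mul, symmDiff_self]; simp [chi]
    exact mul_self_eq_one_iff.1 h1
  have hsign : ∀ u ∉ univ.biUnion E, 0 < (θ' - ∑ y, a y * q y u) * chi univ (pt x u) := by
    intro u hu
    rw [hval u hu]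
    rcases hpm (pt x u) with h | h
    · rw [h, mul_one]
      have h2 : ¬ θ < ∑ y, a y * iR (qev p m (l y) fun ys => P y ys (pt x u) = true) := by
        rw [← hpar, h]; norm_num
      linarith
    · have h2 := hstr _ ((hpar _).1 h)
      rw [h]
      linarith
  have hdegD : ∀ y, q y ∈ Deg S₀ D := by
    intro y
    refine Deg.mono (le_trans ?_ hD) (hq y)
    rw [hl y, hr]
    have h3 : (m + 1) * (4 * ((m + 1) * (k + 1) + 3)) ≤ 16 * (k + 1) * (m + 1) ^ 2 := by
      nlinarith [Nat.zero_le (m * k), Nat.zero_le (m * m * k), Nat.zero_le (m * m)]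
    calc ((m + 1) * (4 * ((m + 1) * (k + 1) + 3))) ^ k * ((m + 1) * (k + 1))
        ≤ (16 * (k + 1) * (m + 1) ^ 2) ^ k * ((m + 1) * (k + 1)) :=
          Nat.mul_le_mul_right _ (Nat.pow_le_pow_left h3 k)
      _ = (16 * (k + 1)) ^ k * (k + 1) * (m + 1) ^ (2 * k + 1) := by
          rw [mul_pow, ← pow_mul, pow_succ]; ring
      _ ≤ (16 * (k + 1)) ^ (k + 1) * (m + 1) ^ (2 * k + 1) := by
          refine Nat.mul_le_mul_right _ ?_
          rw [pow_succ]
          exact Nat.mul_le_mul_left _ (by omega)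
  have hQ : (fun u => θ' - ∑ y, a y * q y u) ∈ Deg S₀ D :=
    Submodule.sub_mem _ (const_mem θ' _)
      (sum_mem' _ _ fun y _ => Submodule.smul_mem _ (a y) (hdegD y))
  have hQ2 : (fun u => (θ' - ∑ y, a y * q y u) * chi univ x) ∈ Deg S₀ D := by
    have h2 := Submodule.smul_mem _ (chi univ x) hQ
    have e : (chi univ x • fun u => θ' - ∑ y, a y * q y u)
        = fun u => (θ' - ∑ y, a y * q y u) * chi univ x := by
      funext u
      rw [Pi.smul_apply, smul_eq_mul, mul_comm]
    rwa [e] at h2
  refine vote (W := S₀) (D := D) (by rw [Fintype.card_coe, hS₀]) hQ2 (univ.biUnion E) ?_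
    fun u hu => ?_
  · have h2 : (univ.biUnion E).card * 2 ^ r ≤ (2 ^ m * (2 ^ (m + 1)) ^ k)
        * 2 ^ Fintype.card S₀ := by
      calc (univ.biUnion E).card * 2 ^ r ≤ (∑ y, (E y).card) * 2 ^ r :=
            Nat.mul_le_mul_right _ Finset.card_biUnion_le
        _ = ∑ y, (E y).card * 2 ^ r := Finset.sum_mul _ _ _
        _ ≤ ∑ _y : Y, (2 ^ (m + 1)) ^ k * 2 ^ Fintype.card S₀ := by
            refine Finset.sum_le_sum fun y _ => ?_
            have := hc y
            rwa [hl y] at this
        _ = Fintype.card Y * ((2 ^ (m + 1)) ^ k * 2 ^ Fintype.card S₀) := by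
            rw [Finset.sum_const, Finset.card_univ, smul_eq_mul]
        _ ≤ 2 ^ m * ((2 ^ (m + 1)) ^ k * 2 ^ Fintype.card S₀) := Nat.mul_le_mul_right _ hY
        _ = _ := by ring
    have h3 : 8 * (2 ^ m * (2 ^ (m + 1)) ^ k) ≤ 2 ^ r := by
      calc 8 * (2 ^ m * (2 ^ (m + 1)) ^ k) = 2 ^ (3 + m + (m + 1) * k) := by
            rw [pow_add 2 (3 + m), pow_add 2 3, pow_mul]; ring
        _ ≤ _ := Nat.pow_le_pow_right (by norm_num) (by rw [hr]; nlinarith)
    have hpos : 0 < 2 ^ m * (2 ^ (m + 1)) ^ k := by positivity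
    refine Nat.le_of_mul_le_mul_left ?_ hpos
    calc (2 ^ m * (2 ^ (m + 1)) ^ k) * (8 * (univ.biUnion E).card)
        = (univ.biUnion E).card * (8 * (2 ^ m * (2 ^ (m + 1)) ^ k)) := by ring
      _ ≤ (univ.biUnion E).card * 2 ^ r := Nat.mul_le_mul_left _ h3
      _ ≤ _ := h2
  · have h2 := hsign u hu
    rw [chi_pt] at h2
    have h3 : (θ' - ∑ y, a y * q y u) * chi univ x * chi univ u
        = (θ' - ∑ y, a y * q y u) * (chi univ u * chi univ x) := by ring
    rw [h3]
    exact h2

end general

/-- explicit lower bound -/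
theorem thr_bound (l : List Quant) (hl : ∀ b, Quant.cnt b ∉ l) (m s n : ℕ)
    (g : (Fin (n + m) → Bool) → Prop) (hg : g ∈ Lev 2 l m s (n + m))
    (a : (Fin m → Bool) → ℝ) (θ : ℝ)
    (hpar : ∀ x : Fin n → Bool, Odd (ones x) ↔ θ < ∑ y, a y * iR (g (Fin.append x y))) :
    n ^ 2 ≤ 243847994572800 * (s + 1) * (16 * (l.length + 1)) ^ (4 * l.length + 4)
      * (m + 1) ^ (8 * l.length + 4) := by
  classical
  obtain ⟨k, hk⟩ : ∃ k, k = l.length := ⟨_, rfl⟩
  rw [← hk]
  obtain ⟨T, hT⟩ : ∃ T, T = Nat.sqrt s + 1 := ⟨_, rfl⟩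
  obtain ⟨D, hD⟩ : ∃ D, D = (16 * (k + 1)) ^ (k + 1) * (m + 1) ^ (2 * k + 1) := ⟨_, rfl⟩
  have hcoord : ∀ y : Fin m → Bool, Coord fun z : Fin n → Bool => Fin.append z y := fun y =>
    Coord.append (τ := fun z => z) (fun i => coord_mem i) _
  have h1 := fun y : Fin m → Bool => family (p := 2) hg (hcoord y)
  choose P hP hP' using h1
  have key : n < 1226880 * T * (8 * D ^ 2 + 1) := by
    have h2 := thr_core (p := 2) (V := Fin n) (k := k) (m := m) (T := T) (D := D) (s := s)
      (Y := Fin m → Bool) (by rw [Fintype.card_fun, Fintype.card_bool, Fintype.card_fin])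
      (fun _ => l) (fun _ => hk.symm) (fun _ => hl) P hP a θ (fun x => by
        rw [chi_odd]
        refine (hpar x).trans ?_
        have : ∀ y, iR (g (Fin.append x y)) = iR (qev 2 m l fun ys => P y ys x = true) := by
          intro y
          congr 1
          exact propext (hP' y x)
        rw [Finset.sum_congr rfl fun y _ => by rw [this y]]) (by omega) (by
        rw [hT, sq]
        exact (Nat.lt_succ_sqrt s).le) hD.symm.le
    rwa [Fintype.card_fin] at h2
  have hT2 : T ^ 2 ≤ 2 * (s + 1) := by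
    have h1 : Nat.sqrt s * Nat.sqrt s ≤ s := Nat.sqrt_le s
    rw [hT]
    nlinarith [sq_nonneg ((Nat.sqrt s : ℤ) - 1), Nat.sqrt_le_self s]
  have hD1 : 1 ≤ D := by
    rw [hD]
    exact Nat.one_le_iff_ne_zero.2 (by positivity)
  have h9 : 8 * D ^ 2 + 1 ≤ 9 * D ^ 2 := by
    have : 1 ≤ D ^ 2 := Nat.one_le_pow _ _ hD1
    omega
  have h10 : n ≤ 11041920 * T * D ^ 2 := by
    calc n ≤ 1226880 * T * (9 * D ^ 2) := key.le.trans (Nat.mul_le_mul_left _ h9)
      _ = _ := by ring
  calc n ^ 2 ≤ (11041920 * T * D ^ 2) ^ 2 := Nat.pow_le_pow_left h10 2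
    _ = 11041920 ^ 2 * T ^ 2 * D ^ 4 := by ring
    _ ≤ 11041920 ^ 2 * (2 * (s + 1)) * D ^ 4 := by gcongr
    _ = 243847994572800 * (s + 1) * D ^ 4 := by ring
    _ = _ := by
        rw [hD, mul_pow, ← pow_mul, ← pow_mul, mul_assoc (243847994572800 * (s + 1))]
        congr 3 <;> ring

end H632.PM
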