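import Mathlib

/-!
# Low-degree functions on the cube over a prime field, and Smolensky's bound for majority
-/

set_option linter.unusedSectionVars false

namespace H632.PM

open Finset

variable {p : ℕ} [Fact p.Prime] {W : Type} [Fintype W] [DecidableEq W]

/-- the value of a bit -/
def bF (p : ℕ) (b : Bool) : ZMod p := if b then 1 else 0

/-- monomials -/
def mon (p : ℕ) {W : Type} (S : Finset W) (x : W → Bool) : ZMod p := ∏ i ∈ S, bF p (x i)

theorem bF_sq (b : Bool) : bF p b * bF p b = bF p b := by cases b <;> simp [bF]

theorem mon_eq (S : Finset W) (x : W → Bool) :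
    mon p S x = if ∀ i ∈ S, x i = true then 1 else 0 := by
  unfold mon bF
  split_ifs with h
  · exact Finset.prod_eq_one fun i hi => if_pos (h i hi)
  · push Not at h
    obtain ⟨i, hi, hx⟩ := h
    exact Finset.prod_eq_zero hi (if_neg hx)

theorem mon_mul (S T : Finset W) (x : W → Bool) :
    mon p S x * mon p T x = mon p (S ∪ T) x := by
  rw [mon_eq, mon_eq, mon_eq]
  by_cases h1 : ∀ i ∈ S, x i = true
  · by_cases h2 : ∀ i ∈ T, x i = true
    · rw [if_pos h1, if_pos h2, if_pos, mul_one]
      intro i hi
      rcases Finset.mem_union.1 hi with h | h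
      · exact h1 i h
      · exact h2 i h
    · rw [if_neg h2, mul_zero, if_neg]
      intro h
      exact h2 fun i hi => h i (Finset.mem_union_right _ hi)
  · rw [if_neg h1, zero_mul, if_neg]
    intro h
    exact h1 fun i hi => h i (Finset.mem_union_left _ hi)

/-- functions of degree at most `d` -/
def PF (p : ℕ) (W : Type) (d : ℕ) : Submodule (ZMod p) ((W → Bool) → ZMod p) :=
  Submodule.span (ZMod p) {g | ∃ S : Finset W, S.card ≤ d ∧ g = mon p S}

theorem PF.mono {d e : ℕ} (h : d ≤ e) : PF p W d ≤ PF p W e := by
  apply Submodule.span_mono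
  rintro g ⟨S, hS, rfl⟩
  exact ⟨S, hS.trans h, rfl⟩

theorem mon_mem {d : ℕ} {S : Finset W} (h : S.card ≤ d) : mon p S ∈ PF p W d :=
  Submodule.subset_span ⟨S, h, rfl⟩

theorem constF_mem (c : ZMod p) (d : ℕ) : (fun _ => c : (W → Bool) → ZMod p) ∈ PF p W d := by
  have h : (fun _ => c : (W → Bool) → ZMod p) = c • mon p (∅ : Finset W) := by
    funext x; simp [mon]
  rw [h]
  exact Submodule.smul_mem _ _ (mon_mem (by simp))

theorem mulF_mem {d e : ℕ} {f g : (W → Bool) → ZMod p} (hf : f ∈ PF p W d) (hg : g ∈ PF p W e) :
    (fun x => f x * g x) ∈ PF p W (d + e) := by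
  induction hf using Submodule.span_induction with
  | mem f hf =>
    obtain ⟨S, hS, rfl⟩ := hf
    induction hg using Submodule.span_induction with
    | mem g hg =>
      obtain ⟨T, hT, rfl⟩ := hg
      have h : (fun x => mon p S x * mon p T x) = mon p (S ∪ T) :=
        funext fun x => mon_mul S T x
      rw [h]
      apply mon_mem
      exact (Finset.card_union_le S T).trans (by omega)
    | zero =>
      have h : (fun x => mon p S x * (0 : (W → Bool) → ZMod p) x) = 0 := by funext x; simp
      rw [h]; exact Submodule.zero_mem _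
    | add g h _ _ ihg ihh =>
      have e : (fun x => mon p S x * (g + h) x)
          = (fun x => mon p S x * g x) + (fun x => mon p S x * h x) := by
        funext x; simp [mul_add]
      rw [e]; exact Submodule.add_mem _ ihg ihh
    | smul a g _ ihg =>
      have e : (fun x => mon p S x * (a • g) x) = a • (fun x => mon p S x * g x) := by
        funext x; simp only [Pi.smul_apply, smul_eq_mul]; ring
      rw [e]; exact Submodule.smul_mem _ _ ihg
  | zero =>
    have h : (fun x => (0 : (W → Bool) → ZMod p) x * g x) = 0 := by funext x; simp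
    rw [h]; exact Submodule.zero_mem _
  | add f h _ _ ihf ihh =>
    have e : (fun x => (f + h) x * g x) = (fun x => f x * g x) + (fun x => h x * g x) := by
      funext x; simp [add_mul]
    rw [e]; exact Submodule.add_mem _ ihf ihh
  | smul a f _ ihf =>
    have e : (fun x => (a • f) x * g x) = a • (fun x => f x * g x) := by
      funext x; simp only [Pi.smul_apply, smul_eq_mul]; ring
    rw [e]; exact Submodule.smul_mem _ _ ihf

theorem prodF_mem {ι : Type*} (T : Finset ι) (d : ℕ) (f : ι → (W → Bool) → ZMod p)
    (h : ∀ i ∈ T, f i ∈ PF p W d) : (fun x => ∏ i ∈ T, f i x) ∈ PF p W (T.card * d) := by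
  classical
  induction T using Finset.induction_on with
  | empty => simpa using constF_mem (W := W) (1 : ZMod p) 0
  | insert a T ha ih =>
    have e : (fun x => ∏ i ∈ insert a T, f i x) = fun x => f a x * ∏ i ∈ T, f i x := by
      funext x; rw [Finset.prod_insert ha]
    rw [e, Finset.card_insert_of_notMem ha]
    have := mulF_mem (h a (Finset.mem_insert_self a T))
      (ih fun i hi => h i (Finset.mem_insert_of_mem hi))
    refine PF.mono ?_ this
    rw [add_mul, one_mul, add_comm]

theorem powF_mem {d : ℕ} {f : (W → Bool) → ZMod p} (h : f ∈ PF p W d) (n : ℕ) :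
    (fun x => f x ^ n) ∈ PF p W (n * d) := by
  have := prodF_mem (Finset.range n) d (fun _ => f) fun _ _ => h
  simpa using this

theorem sumF_mem {ι : Type*} (T : Finset ι) {d : ℕ} (f : ι → (W → Bool) → ZMod p)
    (h : ∀ i ∈ T, f i ∈ PF p W d) : (fun x => ∑ i ∈ T, f i x) ∈ PF p W d := by
  have e : (fun x => ∑ i ∈ T, f i x) = ∑ i ∈ T, f i := by
    funext x; rw [Finset.sum_apply]
  rw [e]
  exact Submodule.sum_mem _ h

theorem bF_mem (i : W) : (fun x : W → Bool => bF p (x i)) ∈ PF p W 1 := by
  have e : (fun x : W → Bool => bF p (x i)) = mon p {i} := by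
    funext x; simp [mon]
  rw [e]
  exact mon_mem (by simp)

/-- translations preserve the degree -/
theorem translate_mem {d : ℕ} {g : (W → Bool) → ZMod p} (hg : g ∈ PF p W d) (a : W → Bool) :
    (fun x => g (fun i => x i ^^ a i)) ∈ PF p W d := by
  induction hg using Submodule.span_induction with
  | mem g hg =>
    obtain ⟨S, hS, rfl⟩ := hg
    have h := prodF_mem (p := p) S 1 (fun i (x : W → Bool) => bF p (x i ^^ a i)) fun i _ => by
      cases ha : a i
      · have e : (fun x : W → Bool => bF p (x i ^^ false)) = fun x => bF p (x i) := by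
          funext x; simp
        rw [e]; exact bF_mem i
      · have e : (fun x : W → Bool => bF p (x i ^^ true))
            = (fun _ => (1 : ZMod p)) - fun x => bF p (x i) := by
          funext x
          rw [Pi.sub_apply]
          cases x i <;> simp [bF]
        rw [e]; exact Submodule.sub_mem _ (constF_mem _ _) (bF_mem i)
    rw [mul_one] at h
    exact PF.mono hS h
  | zero => exact Submodule.zero_mem _
  | add f g _ _ ihf ihg => exact Submodule.add_mem _ ihf ihg
  | smul c f _ ihf => exact Submodule.smul_mem _ c ihf

/-- Moebius inversion over the subsets of a finite set -/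
theorem moebius (G : Finset W → ZMod p) (U : Finset W) :
    ∑ S ∈ U.powerset, (-1) ^ S.card * ∑ U' ∈ S.powerset, (-1) ^ U'.card * G U' = G U := by
  induction U using Finset.induction_on generalizing G with
  | empty => simp
  | insert a U ha ih =>
    have hin : ∀ F : Finset W → ZMod p, ∀ S : Finset W, a ∉ S →
        ∑ U' ∈ (insert a S).powerset, F U'
          = ∑ U' ∈ S.powerset, F U' + ∑ U' ∈ S.powerset, F (insert a U') := fun F S hS =>
      Finset.sum_powerset_insert hS F
    rw [hin _ U ha]
    have h1 : ∀ S ∈ U.powerset, (-1 : ZMod p) ^ (insert a S).card *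
        ∑ U' ∈ (insert a S).powerset, (-1) ^ U'.card * G U'
        = - ((-1) ^ S.card * ∑ U' ∈ S.powerset, (-1) ^ U'.card * G U')
          + (-1) ^ S.card * ∑ U' ∈ S.powerset, (-1) ^ U'.card * G (insert a U') := by
      intro S hS
      have haS : a ∉ S := fun h => ha (Finset.mem_powerset.1 hS h)
      rw [hin _ S haS, Finset.card_insert_of_notMem haS, pow_succ]
      have h2 : ∑ U' ∈ S.powerset, (-1 : ZMod p) ^ (insert a U').card * G (insert a U')
          = - ∑ U' ∈ S.powerset, (-1) ^ U'.card * G (insert a U') := by
        rw [← Finset.sum_neg_distrib]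
        refine Finset.sum_congr rfl fun U' hU' => ?_
        have haU : a ∉ U' := fun h => haS (Finset.mem_powerset.1 hU' h)
        rw [Finset.card_insert_of_notMem haU, pow_succ]
        ring
      rw [h2]; ring
    rw [Finset.sum_congr rfl h1, Finset.sum_add_distrib, Finset.sum_neg_distrib]
    have h3 := ih fun U' => G (insert a U')
    beta_reduce at h3
    rw [h3]; ring

/-- the coefficients of a function -/
def coef (G : (W → Bool) → ZMod p) (S : Finset W) : ZMod p :=
  (-1) ^ S.card * ∑ U ∈ S.powerset, (-1) ^ U.card * G (fun w => decide (w ∈ U))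

/-- the part of degree at most `t` of a function -/
def trunc (t : ℕ) (G : (W → Bool) → ZMod p) (u : W → Bool) : ZMod p :=
  ∑ S ∈ (Finset.univ : Finset (Finset W)).filter (fun S => S.card ≤ t), coef G S * mon p S u

theorem trunc_mem (t : ℕ) (G : (W → Bool) → ZMod p) : trunc t G ∈ PF p W t := by
  refine sumF_mem _ _ fun S hS => ?_
  exact Submodule.smul_mem _ (coef G S) (mon_mem (Finset.mem_filter.1 hS).2)

theorem trunc_eq {t : ℕ} (G : (W → Bool) → ZMod p) {u : W → Bool}
    (h : ∀ S : Finset W, S ⊆ Finset.univ.filter (fun w => u w = true) → t < S.card →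
      coef G S = 0) : trunc t G u = G u := by
  have h1 := moebius (fun U => G (fun w => decide (w ∈ U))) (Finset.univ.filter fun w => u w = true)
  have h2 : (fun w => decide (w ∈ Finset.univ.filter fun w => u w = true)) = u := by
    funext w
    cases hw : u w <;> simp [hw]
  beta_reduce at h1
  rw [h2] at h1
  rw [← h1]
  unfold trunc
  have h3 : ∀ S : Finset W, coef G S * mon p S u
      = if S ⊆ Finset.univ.filter (fun w => u w = true) then coef G S else 0 := by
    intro S
    rw [mon_eq]
    by_cases hS : S ⊆ Finset.univ.filter (fun w => u w = true)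
    · rw [if_pos hS, if_pos (fun w hw => (Finset.mem_filter.1 (hS hw)).2), mul_one]
    · rw [if_neg hS, if_neg, mul_zero]
      intro h
      exact hS fun w hw => Finset.mem_filter.2 ⟨Finset.mem_univ _, h w hw⟩
  rw [Finset.sum_congr rfl fun S _ => h3 S, ← Finset.sum_filter, Finset.filter_filter]
  refine Finset.sum_subset ?_ ?_
  · intro S hS
    exact Finset.mem_powerset.2 (Finset.mem_filter.1 hS).2.2
  · intro S hS hS'
    have hcard : t < S.card := by
      by_contra hcon
      exact hS' (Finset.mem_filter.2 ⟨Finset.mem_univ _, by omega, Finset.mem_powerset.1 hS⟩)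
    exact h S (Finset.mem_powerset.1 hS) hcard

/-- A function on the cube all of whose alternating sums over sets of size more than `t` at the
origin vanish has degree at most `t`. -/
theorem mem_of_alt {t : ℕ} (G : (W → Bool) → ZMod p)
    (h : ∀ S : Finset W, t < S.card →
      ∑ U ∈ S.powerset, (-1) ^ U.card * G (fun w => decide (w ∈ U)) = 0) : G ∈ PF p W t := by
  have : trunc t G = G := funext fun u => trunc_eq G fun S _ hS => by
    unfold coef
    rw [h S hS, mul_zero]
  rw [← this]
  exact trunc_mem t G

/-- the number of ones -/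
def wt {W : Type} [Fintype W] (u : W → Bool) : ℕ := (Finset.univ.filter fun w => u w = true).card

/-- on the points of weight at most `t` every function agrees with one of degree at most `t` -/
theorem low_half (t : ℕ) (G : (W → Bool) → ZMod p) :
    ∃ g ∈ PF p W t, ∀ u, wt u ≤ t → G u = g u := by
  refine ⟨trunc t G, trunc_mem t G, fun u hu => (trunc_eq G fun S hS hc => ?_).symm⟩
  have := Finset.card_le_card hS
  unfold wt at hu
  omega

theorem wt_not (u : W → Bool) : wt (fun i => u i ^^ true) + wt u = Fintype.card W := by
  unfold wt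
  rw [← Finset.card_univ, ← Finset.card_filter_add_card_filter_not (s := Finset.univ)
    (fun w => u w = true), add_comm]
  congr 2
  ext w
  cases u w <;> simp

/-- on the points of weight more than `t` every function of `2 t + 1` bits agrees with one of
degree at most `t` -/
theorem high_half {t : ℕ} (ht : Fintype.card W = 2 * t + 1) (G : (W → Bool) → ZMod p) :
    ∃ g ∈ PF p W t, ∀ u, t < wt u → G u = g u := by
  obtain ⟨g, hg, hg'⟩ := low_half t fun u => G (fun i => u i ^^ true)
  refine ⟨_, translate_mem hg (fun _ => true), fun u hu => ?_⟩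
  have h1 := wt_not u
  have h2 := hg' (fun i => u i ^^ true) (by omega)
  beta_reduce at h2 ⊢
  rw [← h2]
  congr 1
  funext i
  cases u i <;> rfl

theorem finrank_PF (d : ℕ) : Module.finrank (ZMod p) (PF p W d) ≤
    ∑ i ∈ Finset.range (d + 1), (Fintype.card W).choose i := by
  classical
  have h1 : {g : (W → Bool) → ZMod p | ∃ S : Finset W, S.card ≤ d ∧ g = mon p S}
      = (((Finset.univ : Finset (Finset W)).filter fun S => S.card ≤ d).image (mon p) :
        Finset ((W → Bool) → ZMod p)) := by
    ext g
    simp only [Set.mem_ofPred_eq, Finset.coe_image, Set.mem_image, Finset.mem_coe,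
      Finset.mem_filter, Finset.mem_univ, true_and]
    constructor
    · rintro ⟨S, hS, rfl⟩; exact ⟨S, hS, rfl⟩
    · rintro ⟨S, hS, rfl⟩; exact ⟨S, hS, rfl⟩
  unfold PF
  rw [h1]
  refine (finrank_span_finset_le_card _).trans (Finset.card_image_le.trans ?_)
  have h2 : (Finset.univ : Finset (Finset W)).filter (fun S => S.card ≤ d)
      = (Finset.range (d + 1)).biUnion fun i => Finset.powersetCard i Finset.univ := by
    ext S
    simp only [Finset.mem_filter, Finset.mem_univ, true_and, Finset.mem_biUnion,
      Finset.mem_range, Finset.mem_powersetCard, Finset.subset_univ]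
    constructor
    · intro h; exact ⟨S.card, by omega, rfl⟩
    · rintro ⟨i, hi, h⟩; omega
  rw [h2]
  refine Finset.card_biUnion_le.trans (le_of_eq ?_)
  refine Finset.sum_congr rfl fun i _ => ?_
  rw [Finset.card_powersetCard, Finset.card_univ]

/-- Smolensky's dimension argument for majority -/
theorem smolensky_maj {D t : ℕ} (ht : Fintype.card W = 2 * t + 1) {q : (W → Bool) → ZMod p}
    (hq : q ∈ PF p W D) (A : Finset (W → Bool))
    (hA : ∀ u ∈ A, q u = if t < wt u then 1 else 0) :
    A.card ≤ ∑ i ∈ Finset.range (t + D + 1), (2 * t + 1).choose i := by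
  classical
  let R : ((W → Bool) → ZMod p) →ₗ[ZMod p] (A → ZMod p) :=
    { toFun := fun G u => G u.1
      map_add' := fun _ _ => rfl
      map_smul' := fun _ _ => rfl }
  have hR : ∀ G u, R G u = G u.1 := fun _ _ => rfl
  have hmap : ∀ G, R G ∈ (PF p W (t + D)).map R := by
    intro G
    obtain ⟨g0, hg0, h0⟩ := low_half t G
    obtain ⟨g1, hg1, h1⟩ := high_half ht G
    have h2 : (fun u => q u * g1 u) + (fun u => (1 - q u) * g0 u) ∈ PF p W (t + D) := by
      refine Submodule.add_mem _ ?_ ?_
      · rw [add_comm]; exact mulF_mem hq hg1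
      · rw [add_comm]
        exact mulF_mem (Submodule.sub_mem _ (constF_mem 1 _) hq) hg0
    have h3 : R G = R ((fun u => q u * g1 u) + (fun u => (1 - q u) * g0 u)) := by
      funext u
      rw [hR, hR, Pi.add_apply]
      rw [hA u.1 u.2]
      split_ifs with h
      · rw [h1 _ h]; ring
      · rw [h0 _ (by omega)]; ring
    rw [h3]
    exact Submodule.mem_map_of_mem h2
  have htop : (PF p W (t + D)).map R = ⊤ := by
    rw [eq_top_iff]
    intro F _
    have : R (fun u => if h : u ∈ A then F ⟨u, h⟩ else 0) = F := by
      funext u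
      rw [hR]
      simp [u.2]
    rw [← this]
    exact hmap _
  have h3 : Module.finrank (ZMod p) ((PF p W (t + D)).map R) = A.card := by
    rw [htop, finrank_top, Module.finrank_pi, Fintype.card_coe]
  calc A.card = Module.finrank (ZMod p) ((PF p W (t + D)).map R) := h3.symm
    _ ≤ Module.finrank (ZMod p) (PF p W (t + D)) := Submodule.finrank_map_le R _
    _ ≤ _ := by
      have := finrank_PF (p := p) (W := W) (t + D)
      rw [ht] at this
      exact this

end H632.PM
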