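import Pool.Agent.H632R2.PM.Poly
import Pool.Agent.H632R2.PM.Defs
import Pool.Agent.H599R2.PH.Smol

/-!
# Razborov's approximation with counting quantifiers, and majority
-/

set_option linter.unusedSectionVars false

namespace H632.PM

open Finset

/-- truth value of `Q₁ y₁ ... Q_k y_k P(y)` -/
def qev (p m : ℕ) : (l : List Quant) → ((Fin l.length → Fin m → Bool) → Prop) → Prop
  | [], P => P Fin.elim0
  | q :: l, P => q.Holds p fun y => qev p m l fun ys => P (Fin.cons y ys)

variable {p : ℕ} [Fact p.Prime] {W : Type} [Fintype W] [DecidableEq W]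

open Classical in
/-- indicator -/
noncomputable def iF (p : ℕ) (P : Prop) : ZMod p := if P then 1 else 0

theorem iF_true {P : Prop} (h : P) : iF p P = 1 := by
  unfold iF
  split_ifs
  rfl

theorem iF_false {P : Prop} (h : ¬ P) : iF p P = 0 := by
  unfold iF
  split_ifs
  rfl

theorem iF_not (P : Prop) : iF p (¬ P) = 1 - iF p P := by
  by_cases h : P
  · rw [iF_true h, iF_false (not_not.2 h), sub_self]
  · rw [iF_false h, iF_true h, sub_zero]

theorem pow_pred {z : ZMod p} (h : z ≠ 0) : z ^ (p - 1) = 1 := ZMod.pow_card_sub_one_eq_one h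

theorem zero_pow_pred : (0 : ZMod p) ^ (p - 1) = 0 := by
  have := (Fact.out : p.Prime).two_le
  exact zero_pow (by omega)

/-- at most half of the subsets have sum zero -/
theorem zero_sets {ι : Type} [Fintype ι] [DecidableEq ι] (v : ι → ZMod p) {y : ι} (hy : v y ≠ 0) :
    2 * ((Finset.univ : Finset (Finset ι)).filter fun R => ∑ i ∈ R, v i = 0).card
      ≤ 2 ^ Fintype.card ι := by
  classical
  set Z := (Finset.univ : Finset (Finset ι)).filter fun R => ∑ i ∈ R, v i = 0 with hZ
  have h1 : Z.card ≤ ((Finset.univ : Finset (Finset ι)) \ Z).card := by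
    refine Finset.card_le_card_of_injOn (fun R => symmDiff R {y}) ?_ ?_
    · intro R hR
      have hR0 := (Finset.mem_filter.1 (Finset.mem_coe.1 hR)).2
      rw [Finset.mem_coe, Finset.mem_sdiff]
      refine ⟨Finset.mem_univ _, fun hmem => ?_⟩
      have h2 := (Finset.mem_filter.1 hmem).2
      by_cases hyR : y ∈ R
      · have e : symmDiff R {y} = R.erase y := by
          ext a
          rw [Finset.mem_symmDiff, Finset.mem_erase, Finset.mem_singleton]
          by_cases hay : a = y
          · subst hay; simp [hyR]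
          · simp [hay]
        beta_reduce at h2
        rw [e] at h2
        have h3 := Finset.add_sum_erase R v hyR
        rw [h2, add_zero, hR0] at h3
        exact hy h3
      · have e : symmDiff R {y} = insert y R := by
          ext a
          rw [Finset.mem_symmDiff, Finset.mem_insert, Finset.mem_singleton]
          by_cases hay : a = y
          · subst hay; simp [hyR]
          · simp [hay]
        beta_reduce at h2
        rw [e, Finset.sum_insert hyR, hR0, add_zero] at h2
        exact hy h2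
    · intro R _ R' _ h
      beta_reduce at h
      exact symmDiff_left_injective _ h
  have h2 : ((Finset.univ : Finset (Finset ι)) \ Z).card + Z.card = 2 ^ Fintype.card ι := by
    rw [Finset.card_sdiff_add_card_eq_card (Finset.subset_univ Z), Finset.card_univ,
      Fintype.card_finset]
  omega

/-- Razborov's approximation of an `∃` -/
theorem or_approx {ι : Type} [Fintype ι] {d : ℕ} (r : ℕ) (g : ι → (W → Bool) → Prop)
    (f : ι → (W → Bool) → ZMod p) (hf : ∀ y, f y ∈ PF p W d) (E : ι → Finset (W → Bool))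
    (hE : ∀ y, ∀ u ∉ E y, f y u = iF p (g y u)) :
    ∃ q ∈ PF p W (r * (p * d)), ∃ F : Finset (W → Bool),
      (∀ u ∉ F, q u = iF p (∃ y, g y u)) ∧
      F.card * 2 ^ r ≤ (∑ y, (E y).card) * 2 ^ r + 2 ^ Fintype.card W := by
  classical
  set cst : (Fin r → Finset ι) → (W → Bool) → Prop := fun R u =>
    (∃ y, f y u ≠ 0) ∧ ∀ j, ∑ y ∈ R j, f y u = 0 with hcst
  -- a good choice of the sets
  obtain ⟨R, hR⟩ : ∃ R : Fin r → Finset ι,
      (Finset.univ.filter fun u : W → Bool => cst R u).card * 2 ^ r ≤ 2 ^ Fintype.card W := by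
    by_contra hcon
    push Not at hcon
    have h1 : ∑ R : Fin r → Finset ι,
        (Finset.univ.filter fun u : W → Bool => cst R u).card
          = ∑ u : W → Bool, (Finset.univ.filter fun R : Fin r → Finset ι => cst R u).card := by
      simp only [Finset.card_filter]
      exact Finset.sum_comm
    have h2 : ∀ u : W → Bool,
        (Finset.univ.filter fun R : Fin r → Finset ι => cst R u).card * 2 ^ r
          ≤ (2 ^ Fintype.card ι) ^ r := by
      intro u
      by_cases hu : ∃ y, f y u ≠ 0
      · obtain ⟨y, hy⟩ := hu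
        have h3 := zero_sets (fun y => f y u) hy
        set Z := (Finset.univ : Finset (Finset ι)).filter fun R => ∑ i ∈ R, f i u = 0 with hZ
        have h4 : (Finset.univ.filter fun R : Fin r → Finset ι => cst R u)
            ⊆ Fintype.piFinset fun _ : Fin r => Z := by
          intro R hR
          rw [Fintype.mem_piFinset]
          intro j
          rw [hZ, Finset.mem_filter]
          exact ⟨Finset.mem_univ _, (Finset.mem_filter.1 hR).2.2 j⟩
        have h5 := Finset.card_le_card h4
        rw [Fintype.card_piFinset, Finset.prod_const, Finset.card_univ, Fintype.card_fin] at h5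
        calc _ ≤ Z.card ^ r * 2 ^ r := Nat.mul_le_mul_right _ h5
          _ = (2 * Z.card) ^ r := by rw [mul_pow]; ring
          _ ≤ _ := Nat.pow_le_pow_left h3 r
      · have : (Finset.univ.filter fun R : Fin r → Finset ι => cst R u) = ∅ := by
          rw [Finset.filter_eq_empty_iff]
          intro R _ h
          exact hu h.1
        rw [this]; simp
    have h6 : ∑ R : Fin r → Finset ι, 2 ^ Fintype.card W
        < ∑ R : Fin r → Finset ι,
          (Finset.univ.filter fun u : W → Bool => cst R u).card * 2 ^ r :=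
      Finset.sum_lt_sum_of_nonempty Finset.univ_nonempty fun R _ => hcon R
    rw [← Finset.sum_mul, h1, Finset.sum_mul] at h6
    have h7 : ∑ u : W → Bool,
        (Finset.univ.filter fun R : Fin r → Finset ι => cst R u).card * 2 ^ r
        ≤ ∑ _u : W → Bool, (2 ^ Fintype.card ι) ^ r := Finset.sum_le_sum fun u _ => h2 u
    have h8 := h6.trans_le h7
    simp only [Finset.sum_const, Finset.card_univ, Fintype.card_fun, Fintype.card_finset,
      Fintype.card_bool, Fintype.card_fin, smul_eq_mul] at h8
    rw [mul_comm] at h8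
    exact lt_irrefl _ h8
  refine ⟨fun u => 1 - ∏ j : Fin r, (1 - (∑ y ∈ R j, f y u) ^ (p - 1)), ?_,
    (Finset.univ.biUnion E) ∪ (Finset.univ.filter fun u : W → Bool => cst R u), ?_, ?_⟩
  · have h1 : (fun u => ∏ j : Fin r, (1 - (∑ y ∈ R j, f y u) ^ (p - 1)))
        ∈ PF p W (r * (p * d)) := by
      have h2 := prodF_mem (p := p) (W := W) (Finset.univ : Finset (Fin r)) (p * d)
        (fun j u => 1 - (∑ y ∈ R j, f y u) ^ (p - 1)) fun j _ => by
          have h3 : (fun u => ∑ y ∈ R j, f y u) ∈ PF p W d := sumF_mem _ _ fun y _ => hf y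
          have h4 := powF_mem h3 (p - 1)
          have e : (fun u => 1 - (∑ y ∈ R j, f y u) ^ (p - 1))
              = (fun _ => (1 : ZMod p)) - fun u => (∑ y ∈ R j, f y u) ^ (p - 1) := rfl
          rw [e]
          refine Submodule.sub_mem _ (constF_mem _ _) (PF.mono ?_ h4)
          exact Nat.mul_le_mul_right _ (Nat.sub_le _ _)
      rw [Finset.card_univ, Fintype.card_fin] at h2
      exact h2
    have e : (fun u => 1 - ∏ j : Fin r, (1 - (∑ y ∈ R j, f y u) ^ (p - 1)))
        = (fun _ => (1 : ZMod p))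
          - fun u => ∏ j : Fin r, (1 - (∑ y ∈ R j, f y u) ^ (p - 1)) := rfl
    rw [e]
    exact Submodule.sub_mem _ (constF_mem _ _) h1
  · intro u hu
    rw [Finset.mem_union, not_or, Finset.mem_biUnion, Finset.mem_filter] at hu
    obtain ⟨hu1, hu2⟩ := hu
    have hpu : ∀ y, f y u = iF p (g y u) := fun y =>
      hE y u fun h => hu1 ⟨y, Finset.mem_univ y, h⟩
    beta_reduce
    by_cases hex : ∃ y, g y u
    · rw [iF_true hex]
      obtain ⟨y, hy⟩ := hex
      have hne : f y u ≠ 0 := by rw [hpu y, iF_true hy]; exact one_ne_zero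
      have h3 : ∃ j, ∑ y ∈ R j, f y u ≠ 0 := by
        by_contra hcon
        push Not at hcon
        exact hu2 ⟨Finset.mem_univ u, ⟨y, hne⟩, hcon⟩
      obtain ⟨j, hj⟩ := h3
      rw [Finset.prod_eq_zero (Finset.mem_univ j), sub_zero]
      rw [pow_pred hj, sub_self]
    · rw [iF_false hex]
      have h3 : ∀ y, f y u = 0 := fun y => by
        rw [hpu y, iF_false fun h => hex ⟨y, h⟩]
      simp only [h3, Finset.sum_const_zero, zero_pow_pred, sub_zero, Finset.prod_const_one,
        sub_self]
  · have h1 : ((Finset.univ.biUnion E) ∪ (Finset.univ.filter fun u : W → Bool => cst R u)).card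
        ≤ ∑ y, (E y).card + (Finset.univ.filter fun u : W → Bool => cst R u).card :=
      (Finset.card_union_le _ _).trans (Nat.add_le_add_right Finset.card_biUnion_le _)
    calc _ ≤ (∑ y, (E y).card + (Finset.univ.filter fun u : W → Bool => cst R u).card) * 2 ^ r :=
          Nat.mul_le_mul_right _ h1
      _ = (∑ y, (E y).card) * 2 ^ r
          + (Finset.univ.filter fun u : W → Bool => cst R u).card * 2 ^ r := by ring
      _ ≤ _ := Nat.add_le_add_left hR _

/-- Exact treatment of counting modulo `p` -/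
theorem cnt_approx {ι : Type} [Fintype ι] {d : ℕ} {r : ℕ} (hr : 1 ≤ r) (a : ℕ)
    (g : ι → (W → Bool) → Prop)
    (f : ι → (W → Bool) → ZMod p) (hf : ∀ y, f y ∈ PF p W d) (E : ι → Finset (W → Bool))
    (hE : ∀ y, ∀ u ∉ E y, f y u = iF p (g y u)) :
    ∃ q ∈ PF p W (r * (p * d)), ∃ F : Finset (W → Bool),
      (∀ u ∉ F, q u = iF p (Nat.card {y // g y u} ≡ a [MOD p])) ∧
      F.card * 2 ^ r ≤ (∑ y, (E y).card) * 2 ^ r + 2 ^ Fintype.card W := by
  classical
  refine ⟨fun u => 1 - (∑ y, f y u - (a : ZMod p)) ^ (p - 1), ?_, Finset.univ.biUnion E, ?_, ?_⟩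
  · have h3 : (fun u => ∑ y, f y u) ∈ PF p W d := sumF_mem _ _ fun y _ => hf y
    have h4 := powF_mem (Submodule.sub_mem _ h3 (constF_mem (a : ZMod p) d)) (p - 1)
    have e : (fun u => 1 - (∑ y, f y u - (a : ZMod p)) ^ (p - 1))
        = (fun _ => (1 : ZMod p)) - fun u => (∑ y, f y u - (a : ZMod p)) ^ (p - 1) := rfl
    rw [e]
    refine Submodule.sub_mem _ (constF_mem _ _) (PF.mono ?_ h4)
    calc (p - 1) * d ≤ p * d := Nat.mul_le_mul_right _ (Nat.sub_le _ _)
      _ ≤ r * (p * d) := Nat.le_mul_of_pos_left _ hr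
  · intro u hu
    rw [Finset.mem_biUnion] at hu
    have hpu : ∀ y, f y u = iF p (g y u) := fun y =>
      hE y u fun h => hu ⟨y, Finset.mem_univ y, h⟩
    have hcard : ∑ y, f y u = ((Nat.card {y // g y u} : ℕ) : ZMod p) := by
      rw [Nat.card_eq_fintype_card, Fintype.card_subtype, Finset.card_filter, Nat.cast_sum]
      refine Finset.sum_congr rfl fun y _ => ?_
      rw [hpu y]
      by_cases h : g y u
      · rw [iF_true h, if_pos h]; simp
      · rw [iF_false h, if_neg h]; simp
    beta_reduce
    rw [hcard]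
    by_cases h : Nat.card {y // g y u} ≡ a [MOD p]
    · rw [iF_true h, (ZMod.natCast_eq_natCast_iff _ _ _).2 h, sub_self, zero_pow_pred, sub_zero]
    · rw [iF_false h, pow_pred, sub_self]
      intro h2
      exact h ((ZMod.natCast_eq_natCast_iff _ _ _).1 (sub_eq_zero.1 h2))
  · have h1 : (Finset.univ.biUnion E).card ≤ ∑ y, (E y).card := Finset.card_biUnion_le
    exact (Nat.mul_le_mul_right _ h1).trans (Nat.le_add_right _ _)

/-- Quantified families of functions of degree `t` -/
theorem approx_qev {m t r : ℕ} (hr : 1 ≤ r) (l : List Quant)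
    (P : (Fin l.length → Fin m → Bool) → (W → Bool) → Prop)
    (hP : ∀ ys, (fun u => iF p (P ys u)) ∈ PF p W t) :
    ∃ q ∈ PF p W ((p * r) ^ l.length * t), ∃ F : Finset (W → Bool),
      (∀ u ∉ F, q u = iF p (qev p m l fun ys => P ys u)) ∧
      F.card * 2 ^ r ≤ (2 ^ m + 1) ^ l.length * 2 ^ Fintype.card W := by
  classical
  induction l with
  | nil =>
    refine ⟨_, PF.mono (by simp) (hP Fin.elim0), ∅, fun u _ => rfl, by simp⟩
  | cons e l ih =>
    have hcount : ∀ E : (Fin m → Bool) → Finset (W → Bool),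
        (∀ y, (E y).card * 2 ^ r ≤ (2 ^ m + 1) ^ l.length * 2 ^ Fintype.card W) →
        (∑ y, (E y).card) * 2 ^ r + 2 ^ Fintype.card W
          ≤ (2 ^ m + 1) ^ (l.length + 1) * 2 ^ Fintype.card W := by
      intro E hE
      have h1 : (∑ y, (E y).card) * 2 ^ r
          ≤ 2 ^ m * ((2 ^ m + 1) ^ l.length * 2 ^ Fintype.card W) := by
        rw [Finset.sum_mul]
        calc ∑ y, (E y).card * 2 ^ r
            ≤ ∑ _y : Fin m → Bool, (2 ^ m + 1) ^ l.length * 2 ^ Fintype.card W :=
              Finset.sum_le_sum fun y _ => hE y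
          _ = _ := by simp
      have h2 : 2 ^ Fintype.card W ≤ (2 ^ m + 1) ^ l.length * 2 ^ Fintype.card W :=
        Nat.le_mul_of_pos_left _ (by positivity)
      calc _ ≤ 2 ^ m * ((2 ^ m + 1) ^ l.length * 2 ^ Fintype.card W)
            + (2 ^ m + 1) ^ l.length * 2 ^ Fintype.card W := Nat.add_le_add h1 h2
        _ = _ := by ring
    have hdeg : r * (p * ((p * r) ^ l.length * t)) = (p * r) ^ (l.length + 1) * t := by
      rw [pow_succ]; ring
    have h1 := fun y : Fin m → Bool => ih (fun ys => P (Fin.cons y ys)) fun ys => hP _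
    choose q hq E hE hc using h1
    cases e with
    | ex =>
      obtain ⟨Q, hQ, F, hF, hFc⟩ := or_approx r
        (fun y u => qev p m l fun ys => P (Fin.cons y ys) u) q hq E hE
      exact ⟨Q, PF.mono (le_of_eq hdeg) hQ, F, hF, hFc.trans (hcount E hc)⟩
    | all =>
      obtain ⟨Q, hQ, F, hF, hFc⟩ := or_approx r
        (fun y u => ¬ qev p m l fun ys => P (Fin.cons y ys) u) (fun y u => 1 - q y u)
        (fun y => Submodule.sub_mem _ (constF_mem 1 _) (hq y)) E
        (fun y u hu => by beta_reduce; rw [hE y u hu, iF_not])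
      refine ⟨fun u => 1 - Q u, ?_, F, fun u hu => ?_, hFc.trans (hcount E hc)⟩
      · exact Submodule.sub_mem _ (constF_mem 1 _) (PF.mono (le_of_eq hdeg) hQ)
      · beta_reduce
        rw [hF u hu, ← iF_not]
        congr 1
        change _ = ∀ y, _
        rw [not_exists]
        exact propext ⟨fun h y => not_not.1 (h y), fun h y => not_not.2 (h y)⟩
    | cnt a =>
      obtain ⟨Q, hQ, F, hF, hFc⟩ := cnt_approx hr a
        (fun y u => qev p m l fun ys => P (Fin.cons y ys) u) q hq E hE
      exact ⟨Q, PF.mono (le_of_eq hdeg) hQ, F, hF, hFc.trans (hcount E hc)⟩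

/-- A quantified family of functions of low degree does not compute majority. -/
theorem no_maj {m t r D : ℕ} (l : List Quant) (hr1 : 1 ≤ r)
    (hr : 8 * (2 ^ m + 1) ^ l.length ≤ 2 ^ r)
    (hD : (p * r) ^ l.length * t ≤ D) (hW : Fintype.card W = 8 * D ^ 2 + 1)
    (P : (Fin l.length → Fin m → Bool) → (W → Bool) → Prop)
    (hP : ∀ ys, (fun u => iF p (P ys u)) ∈ PF p W t)
    (hmaj : ∀ u, (qev p m l fun ys => P ys u) ↔ 4 * D ^ 2 < wt u) : False := by
  classical
  obtain ⟨q, hq, F, hF, hFc⟩ := approx_qev (p := p) (W := W) hr1 l P hP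
  have hW2 : Fintype.card W = 2 * (4 * D ^ 2) + 1 := by rw [hW]; ring
  have h1 := smolensky_maj hW2 (PF.mono hD hq) (Finset.univ \ F) fun u hu => by
    rw [hF u (Finset.mem_sdiff.1 hu).2]
    split_ifs with h
    · exact iF_true ((hmaj u).2 h)
    · exact iF_false fun h2 => h ((hmaj u).1 h2)
  have h2 := H599.PH.half_count (D := D) (m := 4 * D ^ 2) (by omega)
  have h3 : (Finset.univ \ F).card + F.card = 2 * 4 ^ (4 * D ^ 2) := by
    rw [Finset.card_sdiff_add_card_eq_card (Finset.subset_univ F), Finset.card_univ,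
      Fintype.card_fun, Fintype.card_bool, hW2, pow_succ, pow_mul]
    norm_num
    ring
  have h4 : 8 * F.card ≤ 2 * 4 ^ (4 * D ^ 2) := by
    have h5 : F.card * 2 ^ r ≤ (2 ^ m + 1) ^ l.length * (2 * 4 ^ (4 * D ^ 2)) := by
      refine hFc.trans (le_of_eq ?_)
      rw [hW2, pow_succ, pow_mul]
      norm_num
      ring
    have hpos : 0 < (2 ^ m + 1) ^ l.length := by positivity
    refine Nat.le_of_mul_le_mul_left ?_ hpos
    calc (2 ^ m + 1) ^ l.length * (8 * F.card) = F.card * (8 * (2 ^ m + 1) ^ l.length) := by ring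
      _ ≤ F.card * 2 ^ r := Nat.mul_le_mul_left _ hr
      _ ≤ _ := h5
  omega

end H632.PM
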