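import Pool.Agent.H632R2.PM.Low
import Pool.Agent.H632R2.PM.PDefs
import Pool.Agent.H599R2.QB.Thr

/-!
# Real polynomials representing quantified low-degree functions at most points; voting polynomials
-/

set_option linter.unusedSectionVars false

namespace H632.PM

open Finset H599.QB
open H599.PH (Coord Good restrict ind)

section hash

variable {Y : Type} [Fintype Y] [DecidableEq Y]

/-- number of maps which vanish on a set -/
theorem card_fix {N : ℕ} (hN : 0 < N) (A : Finset Y) :
    (univ.filter fun h : Y → Fin N => ∀ y ∈ A, h y = ⟨0, hN⟩).card * N ^ A.card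
      = N ^ Fintype.card Y := by
  have h1 : (univ.filter fun h : Y → Fin N => ∀ y ∈ A, h y = ⟨0, hN⟩)
      = Fintype.piFinset fun y => if y ∈ A then {⟨0, hN⟩} else univ := by
    ext h
    rw [Finset.mem_filter, Fintype.mem_piFinset]
    constructor
    · rintro ⟨_, h1⟩ y
      split_ifs with hy
      · rw [Finset.mem_singleton]; exact h1 y hy
      · exact Finset.mem_univ _
    · intro h1
      refine ⟨Finset.mem_univ _, fun y hy => ?_⟩
      have := h1 y
      rw [if_pos hy, Finset.mem_singleton] at this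
      exact this
  have h2 : ∀ y : Y, (if y ∈ A then ({⟨0, hN⟩} : Finset (Fin N)) else univ).card
      = if y ∈ A then 1 else N := by
    intro y
    split_ifs
    · simp
    · rw [Finset.card_univ, Fintype.card_fin]
  rw [h1, Fintype.card_piFinset, Finset.prod_congr rfl fun y _ => h2 y, Finset.prod_ite,
    Finset.prod_const_one, one_mul, Finset.prod_const, ← pow_add]
  congr 1
  have h3 := Finset.card_filter_add_card_filter_not (s := (Finset.univ : Finset Y)) (fun y => y ∈ A)
  have h4 : (Finset.univ.filter fun y => y ∈ A) = A := by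
    ext y; simp
  rw [h4, Finset.card_univ] at h3
  omega

/-- a constant fraction of the maps isolates an element of a set of the right size -/
theorem hash_count {N : ℕ} (hN : 0 < N) (A : Finset Y) (h1 : N < 4 * A.card)
    (h2 : 2 * A.card ≤ N) :
    3 * N ^ Fintype.card Y ≤ 16 * (univ.filter fun h : Y → Fin N =>
      (A.filter fun y => h y = ⟨0, hN⟩).card = 1).card := by
  classical
  set F := N ^ Fintype.card Y with hF
  set G := univ.filter fun h : Y → Fin N => (A.filter fun y => h y = ⟨0, hN⟩).card = 1 with hG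
  set X : (Y → Fin N) → ℤ := fun h => ((A.filter fun y => h y = ⟨0, hN⟩).card : ℤ) with hX
  have hsumX : (N : ℤ) * ∑ h, X h = A.card * F := by
    have h3 : ∑ h : Y → Fin N, X h
        = ∑ y ∈ A, ((univ.filter fun h : Y → Fin N => h y = ⟨0, hN⟩).card : ℤ) := by
      rw [hX]
      simp only [Finset.card_filter]
      push_cast
      exact Finset.sum_comm
    have h4 : ∀ y ∈ A, (N : ℤ) * ((univ.filter fun h : Y → Fin N => h y = ⟨0, hN⟩).card : ℤ)
        = F := by
      intro y _
      have h5 := card_fix hN ({y} : Finset Y)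
      simp only [Finset.mem_singleton, forall_eq, Finset.card_singleton, pow_one] at h5
      rw [hF, ← h5]
      push_cast
      ring
    rw [h3, Finset.mul_sum, Finset.sum_congr rfl h4, Finset.sum_const, nsmul_eq_mul]
  have hsumX2 : (N : ℤ) ^ 2 * ∑ h, X h ^ 2
      = A.card * N * F + A.card * (A.card - 1) * F := by
    have h3 : ∑ h : Y → Fin N, X h ^ 2 = ∑ y ∈ A, ∑ z ∈ A,
        ((univ.filter fun h : Y → Fin N => h y = ⟨0, hN⟩ ∧ h z = ⟨0, hN⟩).card : ℤ) := by
      have h4 : ∀ h : Y → Fin N, X h ^ 2 = ∑ y ∈ A, ∑ z ∈ A,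
          (if h y = ⟨0, hN⟩ ∧ h z = ⟨0, hN⟩ then (1 : ℤ) else 0) := by
        intro h
        rw [hX]
        beta_reduce
        rw [Finset.card_filter]
        push_cast
        rw [sq, Finset.sum_mul_sum]
        refine Finset.sum_congr rfl fun y _ => Finset.sum_congr rfl fun z _ => ?_
        by_cases ha : h y = ⟨0, hN⟩ <;> by_cases hb : h z = ⟨0, hN⟩ <;> simp [ha, hb]
      rw [Finset.sum_congr rfl fun h _ => h4 h, Finset.sum_comm]
      refine Finset.sum_congr rfl fun y _ => ?_
      rw [Finset.sum_comm]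
      refine Finset.sum_congr rfl fun z _ => ?_
      rw [Finset.card_filter]
      push_cast
      rfl
    have h4 : ∀ y ∈ A, ∀ z ∈ A, (N : ℤ) ^ 2 *
        ((univ.filter fun h : Y → Fin N => h y = ⟨0, hN⟩ ∧ h z = ⟨0, hN⟩).card : ℤ)
        = if y = z then (N : ℤ) * F else F := by
      intro y _ z _
      split_ifs with hyz
      · subst hyz
        have h5 := card_fix hN ({y} : Finset Y)
        simp only [Finset.mem_singleton, forall_eq, Finset.card_singleton, pow_one] at h5
        simp only [and_self]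
        rw [hF, ← h5]
        push_cast
        ring
      · have h5 := card_fix hN ({y, z} : Finset Y)
        rw [Finset.card_pair hyz] at h5
        simp only [Finset.mem_insert, Finset.mem_singleton, forall_eq_or_imp, forall_eq] at h5
        rw [hF, ← h5]
        push_cast
        ring
    rw [h3, Finset.mul_sum]
    have h6 : ∀ y ∈ A, (N : ℤ) ^ 2 * ∑ z ∈ A,
        ((univ.filter fun h : Y → Fin N => h y = ⟨0, hN⟩ ∧ h z = ⟨0, hN⟩).card : ℤ)
        = (A.card - 1) * F + N * F := by
      intro y hy
      rw [Finset.mul_sum, Finset.sum_congr rfl (h4 y hy), Finset.sum_ite, Finset.sum_const,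
        Finset.sum_const, nsmul_eq_mul, nsmul_eq_mul]
      have h7 : (A.filter fun z => y = z) = {y} := by
        ext z
        rw [Finset.mem_filter, Finset.mem_singleton]
        constructor
        · rintro ⟨_, h⟩; exact h.symm
        · rintro rfl; exact ⟨hy, rfl⟩
      have h8 := Finset.card_filter_add_card_filter_not (s := A) (fun z => y = z)
      rw [h7, Finset.card_singleton] at h8
      rw [h7, Finset.card_singleton]
      have h9 : ((A.filter fun z => ¬ y = z).card : ℤ) = A.card - 1 := by
        have : (A.filter fun z => ¬ y = z).card = A.card - 1 := by omega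
        rw [this, Nat.cast_sub (by omega)]
        push_cast
        ring
      rw [h9]
      push_cast
      ring
    rw [Finset.sum_congr rfl h6, Finset.sum_const, nsmul_eq_mul]
    ring
  have hind : ∀ h : Y → Fin N, 2 * X h - X h ^ 2 ≤ if h ∈ G then 1 else 0 := by
    intro h
    have h3 : 0 ≤ X h := by rw [hX]; positivity
    split_ifs with hG'
    · nlinarith [sq_nonneg (X h - 1)]
    · have h4 : X h ≠ 1 := by
        intro h5
        apply hG'
        rw [hG, Finset.mem_filter]
        refine ⟨Finset.mem_univ _, ?_⟩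
        rw [hX] at h5
        beta_reduce at h5
        exact_mod_cast h5
      rcases lt_or_gt_of_ne h4 with h5 | h5
      · have : X h = 0 := by omega
        rw [this]; norm_num
      · nlinarith
  have hGsum : ∑ h : Y → Fin N, (2 * X h - X h ^ 2) ≤ (G.card : ℤ) := by
    calc ∑ h : Y → Fin N, (2 * X h - X h ^ 2) ≤ ∑ h : Y → Fin N, (if h ∈ G then (1 : ℤ) else 0) :=
          Finset.sum_le_sum fun h _ => hind h
      _ = G.card := by
          rw [← Finset.sum_filter, Finset.filter_mem_eq_inter, Finset.univ_inter]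
          simp
  rw [Finset.sum_sub_distrib, ← Finset.mul_sum] at hGsum
  have hNpos : (0 : ℤ) < N := by exact_mod_cast hN
  have hFpos : (0 : ℤ) ≤ F := by positivity
  have hA1 : (N : ℤ) < 4 * A.card := by exact_mod_cast h1
  have hA2 : 2 * (A.card : ℤ) ≤ N := by exact_mod_cast h2
  have h5 : (A.card : ℤ) * F * (N - A.card) ≤ (N : ℤ) ^ 2 * G.card := by
    have h6 : (N : ℤ) ^ 2 * (2 * ∑ h, X h - ∑ h, X h ^ 2) ≤ (N : ℤ) ^ 2 * G.card :=
      mul_le_mul_of_nonneg_left hGsum (by positivity)
    have h7 : (N : ℤ) ^ 2 * (2 * ∑ h, X h - ∑ h, X h ^ 2)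
        = 2 * N * (N * ∑ h, X h) - (N : ℤ) ^ 2 * ∑ h, X h ^ 2 := by ring
    rw [h7, hsumX, hsumX2] at h6
    have h8 : (0 : ℤ) ≤ A.card * F := by positivity
    nlinarith
  have h6 : (3 : ℤ) * (N : ℤ) ^ 2 * F ≤ 16 * ((N : ℤ) ^ 2 * G.card) := by
    have h7 : (3 : ℤ) * (N : ℤ) ^ 2 ≤ 16 * (A.card * (N - A.card)) := by nlinarith
    calc (3 : ℤ) * (N : ℤ) ^ 2 * F ≤ 16 * (A.card * (N - A.card)) * F :=
          mul_le_mul_of_nonneg_right h7 hFpos
      _ = 16 * (A.card * F * (N - A.card)) := by ring
      _ ≤ _ := by linarith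
  have h7 : (N : ℤ) ^ 2 * (3 * F) ≤ (N : ℤ) ^ 2 * (16 * G.card) := by linarith
  have h8 := le_of_mul_le_mul_left h7 (by positivity : (0 : ℤ) < (N : ℤ) ^ 2)
  exact_mod_cast h8

/-- a choice of maps which isolates for most points -/
theorem hash_choice {U : Type} [Fintype U] [DecidableEq U] {N : ℕ} (hN : 0 < N) (r : ℕ)
    (A : U → Finset Y) :
    ∃ H : Fin (4 * r) → (Y → Fin N), (univ.filter fun u : U => N < 4 * (A u).card ∧
      2 * (A u).card ≤ N ∧ ∀ i, ((A u).filter fun y => H i y = ⟨0, hN⟩).card ≠ 1).card * 2 ^ r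
        ≤ Fintype.card U := by
  classical
  by_contra hcon
  push Not at hcon
  set bad : (Fin (4 * r) → (Y → Fin N)) → U → Prop := fun H u => N < 4 * (A u).card ∧
      2 * (A u).card ≤ N ∧ ∀ i, ((A u).filter fun y => H i y = ⟨0, hN⟩).card ≠ 1 with hbad
  have hne : Nonempty (Fin N) := ⟨⟨0, hN⟩⟩
  have h1 : ∑ H : Fin (4 * r) → (Y → Fin N), (univ.filter fun u : U => bad H u).card
      = ∑ u : U, (univ.filter fun H : Fin (4 * r) → (Y → Fin N) => bad H u).card := by
    simp only [Finset.card_filter]
    exact Finset.sum_comm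
  have h2 : ∀ u : U, (univ.filter fun H : Fin (4 * r) → (Y → Fin N) => bad H u).card * 2 ^ r
      ≤ (N ^ Fintype.card Y) ^ (4 * r) := by
    intro u
    by_cases hu : N < 4 * (A u).card ∧ 2 * (A u).card ≤ N
    · set B := univ.filter fun h : Y → Fin N =>
        ((A u).filter fun y => h y = ⟨0, hN⟩).card ≠ 1 with hB
      have h3 := hash_count hN (A u) hu.1 hu.2
      have h4 : 16 * B.card ≤ 13 * N ^ Fintype.card Y := by
        have h5 := Finset.card_filter_add_card_filter_not (s := (univ : Finset (Y → Fin N)))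
          (fun h => ((A u).filter fun y => h y = ⟨0, hN⟩).card = 1)
        rw [Finset.card_univ, Fintype.card_fun, Fintype.card_fin] at h5
        have h6 : B = univ.filter fun h : Y → Fin N =>
            ¬ ((A u).filter fun y => h y = ⟨0, hN⟩).card = 1 := rfl
        rw [h6]
        omega
      have h5 : (univ.filter fun H : Fin (4 * r) → (Y → Fin N) => bad H u).card
          ≤ B.card ^ (4 * r) := by
        have h6 : (univ.filter fun H : Fin (4 * r) → (Y → Fin N) => bad H u)
            ⊆ Fintype.piFinset fun _ : Fin (4 * r) => B := by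
          intro H hH
          rw [Fintype.mem_piFinset]
          intro i
          rw [hB, Finset.mem_filter]
          exact ⟨Finset.mem_univ _, (Finset.mem_filter.1 hH).2.2.2 i⟩
        have h7 := Finset.card_le_card h6
        rwa [Fintype.card_piFinset, Finset.prod_const, Finset.card_univ, Fintype.card_fin] at h7
      have h8 : (16 : ℕ) ^ (4 * r) * (B.card ^ (4 * r) * 2 ^ r)
          ≤ 16 ^ (4 * r) * (N ^ Fintype.card Y) ^ (4 * r) := by
        calc (16 : ℕ) ^ (4 * r) * (B.card ^ (4 * r) * 2 ^ r)
            = (16 * B.card) ^ (4 * r) * 2 ^ r := by rw [mul_pow]; ring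
          _ ≤ (13 * N ^ Fintype.card Y) ^ (4 * r) * 2 ^ r := by gcongr
          _ = ((13 ^ 4) ^ r * 2 ^ r) * (N ^ Fintype.card Y) ^ (4 * r) := by
              rw [mul_pow, pow_mul 13 4 r]; ring
          _ = (13 ^ 4 * 2) ^ r * (N ^ Fintype.card Y) ^ (4 * r) := by rw [mul_pow]
          _ ≤ (16 ^ 4) ^ r * (N ^ Fintype.card Y) ^ (4 * r) := by
              gcongr
              norm_num
          _ = _ := by rw [pow_mul 16 4 r]
      have h9 := Nat.le_of_mul_le_mul_left h8 (by positivity)
      exact (Nat.mul_le_mul_right _ h5).trans h9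
    · have h3 : (univ.filter fun H : Fin (4 * r) → (Y → Fin N) => bad H u) = ∅ := by
        rw [Finset.filter_eq_empty_iff]
        intro H _ h
        exact hu ⟨h.1, h.2.1⟩
      rw [h3]; simp
  have h3 : ∑ _H : Fin (4 * r) → (Y → Fin N), Fintype.card U
      < ∑ H : Fin (4 * r) → (Y → Fin N), (univ.filter fun u : U => bad H u).card * 2 ^ r :=
    Finset.sum_lt_sum_of_nonempty Finset.univ_nonempty fun H _ => hcon H
  rw [← Finset.sum_mul, h1, Finset.sum_mul] at h3
  have h4 := h3.trans_le (Finset.sum_le_sum fun u _ => h2 u)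
  simp only [Finset.sum_const, Finset.card_univ, Fintype.card_fun, Fintype.card_fin,
    smul_eq_mul] at h4
  rw [mul_comm] at h4
  exact lt_irrefl _ h4

end hash

section real

variable {W : Type} [Fintype W] [DecidableEq W]

theorem iR_true {P : Prop} (h : P) : iR P = 1 := by
  unfold iR
  split_ifs
  rfl

theorem iR_false {P : Prop} (h : ¬ P) : iR P = 0 := by
  unfold iR
  split_ifs
  rfl

theorem iR_not (P : Prop) : iR (¬ P) = 1 - iR P := by
  by_cases h : P
  · rw [iR_true h, iR_false (not_not.2 h), sub_self]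
  · rw [iR_false h, iR_true h, sub_zero]

/-- real approximation of an `∃` -/
theorem or_real {Y : Type} [Fintype Y] [DecidableEq Y] {m d : ℕ} (hY : Fintype.card Y ≤ 2 ^ m)
    (r : ℕ) (g : Y → (W → Bool) → Prop)
    (f : Y → (W → Bool) → ℝ) (hf : ∀ y, f y ∈ Deg W d) (E : Y → Finset (W → Bool))
    (hE : ∀ y, ∀ u ∉ E y, f y u = iR (g y u)) :
    ∃ q ∈ Deg W ((m + 1) * (4 * r * d)), ∃ F : Finset (W → Bool),
      (∀ u ∉ F, q u = iR (∃ y, g y u)) ∧
      F.card * 2 ^ r ≤ (∑ y, (E y).card) * 2 ^ r + (m + 1) * 2 ^ Fintype.card W := by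
  classical
  set A : (W → Bool) → Finset Y := fun u => univ.filter fun y => g y u with hA
  have hpos : ∀ j : Fin (m + 1), 0 < 2 ^ ((j : ℕ) + 1) := fun j => by positivity
  have h1 := fun j : Fin (m + 1) => hash_choice (U := W → Bool) (hpos j) r A
  choose H hH using h1
  set B : Fin (m + 1) → Finset (W → Bool) := fun j => univ.filter fun u : W → Bool =>
    2 ^ ((j : ℕ) + 1) < 4 * (A u).card ∧ 2 * (A u).card ≤ 2 ^ ((j : ℕ) + 1) ∧
      ∀ i, ((A u).filter fun y => H j i y = ⟨0, hpos j⟩).card ≠ 1 with hB
  refine ⟨fun u => 1 - ∏ j : Fin (m + 1), ∏ i : Fin (4 * r),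
    (1 - ∑ y ∈ univ.filter fun y => H j i y = ⟨0, hpos j⟩, f y u), ?_,
    (univ.biUnion E) ∪ (univ.biUnion B), ?_, ?_⟩
  · have h2 : (fun u => ∏ j : Fin (m + 1), ∏ i : Fin (4 * r),
        (1 - ∑ y ∈ univ.filter fun y => H j i y = ⟨0, hpos j⟩, f y u))
        ∈ Deg W ((m + 1) * (4 * r * d)) := by
      have h3 := prod_mem (V := W) (univ : Finset (Fin (m + 1))) (4 * r * d)
        (fun j u => ∏ i : Fin (4 * r),
          (1 - ∑ y ∈ univ.filter fun y => H j i y = ⟨0, hpos j⟩, f y u)) fun j _ => by
          have h4 := prod_mem (V := W) (univ : Finset (Fin (4 * r))) d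
            (fun i u => 1 - ∑ y ∈ univ.filter fun y => H j i y = ⟨0, hpos j⟩, f y u)
            fun i _ => Submodule.sub_mem _ (const_mem 1 _) (sum_mem' _ _ fun y _ => hf y)
          rwa [Finset.card_univ, Fintype.card_fin] at h4
      rwa [Finset.card_univ, Fintype.card_fin] at h3
    exact Submodule.sub_mem _ (const_mem 1 _) h2
  · intro u hu
    rw [Finset.mem_union, not_or, Finset.mem_biUnion, Finset.mem_biUnion] at hu
    obtain ⟨hu1, hu2⟩ := hu
    have hpu : ∀ y, f y u = iR (g y u) := fun y =>
      hE y u fun h => hu1 ⟨y, Finset.mem_univ y, h⟩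
    beta_reduce
    by_cases hex : ∃ y, g y u
    · rw [iR_true hex]
      have hw1 : 1 ≤ (A u).card := by
        obtain ⟨y, hy⟩ := hex
        exact Finset.card_pos.2 ⟨y, Finset.mem_filter.2 ⟨Finset.mem_univ _, hy⟩⟩
      have hw2 : (A u).card ≤ 2 ^ m := (Finset.card_le_univ _).trans hY
      -- the scale
      have hex2 : ∃ j, (A u).card ≤ 2 ^ j := ⟨m, hw2⟩
      obtain ⟨j, hj, hj1, hj2⟩ : ∃ j, j ≤ m ∧ 2 ^ (j + 1) < 4 * (A u).card ∧
          2 * (A u).card ≤ 2 ^ (j + 1) := by
        refine ⟨Nat.find hex2, Nat.find_min' hex2 hw2, ?_, ?_⟩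
        · rcases Nat.eq_zero_or_pos (Nat.find hex2) with h0 | h0
          · rw [h0]; omega
          · have h2 := Nat.find_min hex2 (m := Nat.find hex2 - 1) (by omega)
            rw [not_le] at h2
            have h3 : 2 ^ (Nat.find hex2 + 1) = 4 * 2 ^ (Nat.find hex2 - 1) := by
              obtain ⟨a, ha⟩ := Nat.exists_eq_add_of_le' h0
              rw [ha]
              have : a + 1 - 1 = a := by omega
              rw [this]
              ring
            rw [h3]
            omega
        · have h2 := Nat.find_spec hex2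
          rw [pow_succ]
          omega
      have hnb : u ∉ B ⟨j, by omega⟩ := fun h => hu2 ⟨⟨j, by omega⟩, Finset.mem_univ _, h⟩
      have hi : ∃ i, ((A u).filter fun y => H ⟨j, by omega⟩ i y
          = ⟨0, hpos ⟨j, by omega⟩⟩).card = 1 := by
        by_contra hcon
        push Not at hcon
        exact hnb (Finset.mem_filter.2 ⟨Finset.mem_univ _, hj1, hj2, hcon⟩)
      obtain ⟨i, hi⟩ := hi
      rw [Finset.prod_eq_zero (Finset.mem_univ (⟨j, by omega⟩ : Fin (m + 1))), sub_zero]
      refine Finset.prod_eq_zero (Finset.mem_univ i) ?_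
      have h3 : ∑ y ∈ univ.filter fun y => H ⟨j, by omega⟩ i y = ⟨0, hpos ⟨j, by omega⟩⟩, f y u
          = 1 := by
        have h4 : ∑ y ∈ univ.filter fun y => H ⟨j, by omega⟩ i y = ⟨0, hpos ⟨j, by omega⟩⟩, f y u
            = (((A u).filter fun y => H ⟨j, by omega⟩ i y
              = ⟨0, hpos ⟨j, by omega⟩⟩).card : ℝ) := by
          rw [hA]
          beta_reduce
          rw [Finset.filter_filter, Finset.card_filter, Finset.sum_filter]
          push_cast
          refine Finset.sum_congr rfl fun y _ => ?_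
          rw [hpu y]
          by_cases h5 : g y u
          · rw [iR_true h5]
            simp [h5]
          · rw [iR_false h5]
            simp [h5]
        rw [h4, hi, Nat.cast_one]
      rw [h3, sub_self]
    · rw [iR_false hex]
      have h3 : ∀ y, f y u = 0 := fun y => by
        rw [hpu y, iR_false fun h => hex ⟨y, h⟩]
      simp only [h3, Finset.sum_const_zero, sub_zero, Finset.prod_const_one, sub_self]
  · have h2 : ((univ.biUnion E) ∪ (univ.biUnion B)).card
        ≤ ∑ y, (E y).card + ∑ j, (B j).card :=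
      (Finset.card_union_le _ _).trans (Nat.add_le_add Finset.card_biUnion_le
        Finset.card_biUnion_le)
    have h3 : (∑ j, (B j).card) * 2 ^ r ≤ (m + 1) * 2 ^ Fintype.card W := by
      rw [Finset.sum_mul]
      calc ∑ j, (B j).card * 2 ^ r ≤ ∑ _j : Fin (m + 1), 2 ^ Fintype.card W := by
            refine Finset.sum_le_sum fun j _ => ?_
            have := hH j
            rwa [Fintype.card_fun, Fintype.card_bool] at this
        _ = _ := by rw [Finset.sum_const, Finset.card_univ, Fintype.card_fin, smul_eq_mul]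
    calc _ ≤ (∑ y, (E y).card + ∑ j, (B j).card) * 2 ^ r := Nat.mul_le_mul_right _ h2
      _ = (∑ y, (E y).card) * 2 ^ r + (∑ j, (B j).card) * 2 ^ r := by ring
      _ ≤ _ := Nat.add_le_add_left h3 _

/-- Quantified families of functions of degree `t` -/
theorem real_qev {p m t r : ℕ} (l : List Quant) (hl : ∀ a, Quant.cnt a ∉ l)
    (P : (Fin l.length → Fin m → Bool) → (W → Bool) → Prop)
    (hP : ∀ ys, (fun u => iR (P ys u)) ∈ Deg W t) :
    ∃ q ∈ Deg W (((m + 1) * (4 * r)) ^ l.length * t), ∃ F : Finset (W → Bool),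
      (∀ u ∉ F, q u = iR (qev p m l fun ys => P ys u)) ∧
      F.card * 2 ^ r ≤ (2 ^ (m + 1)) ^ l.length * 2 ^ Fintype.card W := by
  classical
  induction l with
  | nil =>
    refine ⟨_, Deg.mono (by simp) (hP Fin.elim0), ∅, fun u _ => rfl, by simp⟩
  | cons e l ih =>
    have hcount : ∀ E : (Fin m → Bool) → Finset (W → Bool),
        (∀ y, (E y).card * 2 ^ r ≤ (2 ^ (m + 1)) ^ l.length * 2 ^ Fintype.card W) →
        (∑ y, (E y).card) * 2 ^ r + (m + 1) * 2 ^ Fintype.card W
          ≤ (2 ^ (m + 1)) ^ (l.length + 1) * 2 ^ Fintype.card W := by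
      intro E hE
      have h1 : (∑ y, (E y).card) * 2 ^ r
          ≤ 2 ^ m * ((2 ^ (m + 1)) ^ l.length * 2 ^ Fintype.card W) := by
        rw [Finset.sum_mul]
        calc ∑ y, (E y).card * 2 ^ r
            ≤ ∑ _y : Fin m → Bool, (2 ^ (m + 1)) ^ l.length * 2 ^ Fintype.card W :=
              Finset.sum_le_sum fun y _ => hE y
          _ = _ := by simp
      have h2 : (m + 1) * 2 ^ Fintype.card W
          ≤ 2 ^ m * ((2 ^ (m + 1)) ^ l.length * 2 ^ Fintype.card W) := by
        have h3 : m + 1 ≤ 2 ^ m := Nat.lt_two_pow_self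
        refine Nat.mul_le_mul h3 (Nat.le_mul_of_pos_left _ (by positivity))
      calc _ ≤ 2 ^ m * ((2 ^ (m + 1)) ^ l.length * 2 ^ Fintype.card W)
            + 2 ^ m * ((2 ^ (m + 1)) ^ l.length * 2 ^ Fintype.card W) := Nat.add_le_add h1 h2
        _ = _ := by rw [pow_succ (2 ^ (m + 1)), pow_succ 2 m]; ring
    have hdeg : (m + 1) * (4 * r * (((m + 1) * (4 * r)) ^ l.length * t))
        = ((m + 1) * (4 * r)) ^ (l.length + 1) * t := by
      rw [pow_succ]; ring
    have hY : Fintype.card (Fin m → Bool) ≤ 2 ^ m := by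
      rw [Fintype.card_fun, Fintype.card_bool, Fintype.card_fin]
    have hl' : ∀ a, Quant.cnt a ∉ l := fun a h => hl a (List.mem_cons_of_mem _ h)
    have h1 := fun y : Fin m → Bool => ih hl' (fun ys => P (Fin.cons y ys)) fun ys => hP _
    choose q hq E hE hc using h1
    cases e with
    | ex =>
      obtain ⟨Q, hQ, F, hF, hFc⟩ := or_real hY r
        (fun y u => qev p m l fun ys => P (Fin.cons y ys) u) q hq E hE
      exact ⟨Q, Deg.mono (le_of_eq hdeg) hQ, F, hF, hFc.trans (hcount E hc)⟩
    | all =>
      obtain ⟨Q, hQ, F, hF, hFc⟩ := or_real hY r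
        (fun y u => ¬ qev p m l fun ys => P (Fin.cons y ys) u) (fun y u => 1 - q y u)
        (fun y => Submodule.sub_mem _ (const_mem 1 _) (hq y)) E
        (fun y u hu => by rw [hE y u hu, iR_not])
      refine ⟨fun u => 1 - Q u, ?_, F, fun u hu => ?_, hFc.trans (hcount E hc)⟩
      · exact Submodule.sub_mem _ (const_mem 1 _) (Deg.mono (le_of_eq hdeg) hQ)
      · beta_reduce
        rw [hF u hu, ← iR_not]
        congr 1
        change _ = ∀ y, _
        rw [not_exists]
        exact propext ⟨fun h y => not_not.1 (h y), fun h y => not_not.2 (h y)⟩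
    | cnt a => exact absurd List.mem_cons_self (hl a)

/-- low-degree functions are orthogonal to parity -/
theorem orth {e : ℕ} (he : e < Fintype.card W) {G : (W → Bool) → ℝ} (hG : G ∈ Deg W e) :
    ∑ u, G u * chi univ u = 0 := by
  classical
  induction hG using Submodule.span_induction with
  | mem f hf =>
    obtain ⟨S, hS, rfl⟩ := hf
    have h1 : ∀ u, chi S u * chi univ u = chi (symmDiff S univ) u := fun u => chi_mul _ _ _
    rw [Finset.sum_congr rfl fun u _ => h1 u, sum_chi, if_neg]
    intro h
    have h2 : S = univ := symmDiff_eq_bot.1 h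
    rw [h2, Finset.card_univ] at hS
    omega
  | zero => simp
  | add f g _ _ ihf ihg =>
    have : ∑ u, (f + g) u * chi univ u = ∑ u, f u * chi univ u + ∑ u, g u * chi univ u := by
      rw [← Finset.sum_add_distrib]
      exact Finset.sum_congr rfl fun u _ => by rw [Pi.add_apply]; ring
    rw [this, ihf, ihg, add_zero]
  | smul a f _ ihf =>
    have : ∑ u, (a • f) u * chi univ u = a * ∑ u, f u * chi univ u := by
      rw [Finset.mul_sum]
      exact Finset.sum_congr rfl fun u _ => by rw [Pi.smul_apply, smul_eq_mul]; ring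
    rw [this, ihf, mul_zero]

/-- Voting polynomials: the sign of a polynomial of low degree differs from parity often. -/
theorem vote {D : ℕ} (hW : Fintype.card W = 8 * D ^ 2 + 1) {P : (W → Bool) → ℝ}
    (hP : P ∈ Deg W D) (F : Finset (W → Bool)) (hF : 8 * F.card ≤ 2 ^ Fintype.card W)
    (hpar : ∀ u ∉ F, 0 < P u * chi univ u) : False := by
  classical
  have hW2 : Fintype.card W = 2 * (4 * D ^ 2) + 1 := by rw [hW]; ring
  obtain ⟨M, hM⟩ : ∃ M, M = 4 * D ^ 2 := ⟨_, rfl⟩
  rw [← hM] at hW2
  have hDM : D ≤ M := by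
    rw [hM]
    nlinarith
  -- the number of small sets
  set I := (univ : Finset (Finset W)).filter fun S => S.card ≤ M - D with hI
  have hIcard : F.card < I.card := by
    have h1 := H599.PH.half_count (D := D) (m := M) (by rw [hM]; omega)
    have h2 : ((univ : Finset (Finset W)).filter fun S => S.card ≤ M + D).card
        ≤ ∑ i ∈ Finset.range (M + D + 1), (2 * M + 1).choose i := by
      have h3 : (univ : Finset (Finset W)).filter (fun S => S.card ≤ M + D)
          = (Finset.range (M + D + 1)).biUnion fun i => Finset.powersetCard i univ := by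
        ext S
        simp only [Finset.mem_filter, Finset.mem_univ, true_and, Finset.mem_biUnion,
          Finset.mem_range, Finset.mem_powersetCard, Finset.subset_univ]
        constructor
        · intro h; exact ⟨S.card, by omega, rfl⟩
        · rintro ⟨i, hi, h⟩; omega
      rw [h3]
      refine Finset.card_biUnion_le.trans (le_of_eq ?_)
      refine Finset.sum_congr rfl fun i _ => ?_
      rw [Finset.card_powersetCard, Finset.card_univ, hW2]
    have h4 : ((univ : Finset (Finset W)).filter fun S => ¬ S.card ≤ M + D).card ≤ I.card := by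
      refine Finset.card_le_card_of_injOn (fun S => Sᶜ) ?_ ?_
      · intro S hS
        have h5 := (Finset.mem_filter.1 (Finset.mem_coe.1 hS)).2
        rw [Finset.mem_coe, hI, Finset.mem_filter]
        refine ⟨Finset.mem_univ _, ?_⟩
        rw [Finset.card_compl, hW2]
        omega
      · intro S _ T _ h
        exact compl_injective h
    have h5 := Finset.card_filter_add_card_filter_not (s := (univ : Finset (Finset W)))
      (fun S => S.card ≤ M + D)
    have h6 : 2 ^ Fintype.card W = 2 * 4 ^ M := by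
      rw [hW2, pow_succ, pow_mul]
      norm_num
      ring
    rw [Finset.card_univ, Fintype.card_finset, h6] at h5
    rw [h6] at hF
    omega
  -- a polynomial which vanishes on `F`
  let Φ : (I → ℝ) →ₗ[ℝ] (F → ℝ) :=
    { toFun := fun c u => ∑ S : I, c S * chi (S : Finset W) u.1
      map_add' := fun a b => by
        funext u
        simp only [Pi.add_apply, add_mul, Finset.sum_add_distrib]
      map_smul' := fun a b => by
        funext u
        simp only [Pi.smul_apply, smul_eq_mul, RingHom.id_apply, Finset.mul_sum]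
        exact Finset.sum_congr rfl fun S _ => by ring }
  have hker : LinearMap.ker Φ ≠ ⊥ := by
    refine LinearMap.ker_ne_bot_of_finrank_lt ?_
    rw [Module.finrank_pi, Module.finrank_pi, Fintype.card_coe, Fintype.card_coe]
    exact hIcard
  obtain ⟨c, hc, hc0⟩ := Submodule.exists_mem_ne_zero_of_ne_bot hker
  rw [LinearMap.mem_ker] at hc
  set Q : (W → Bool) → ℝ := fun u => ∑ S : I, c S * chi (S : Finset W) u with hQ
  have hQF : ∀ u ∈ F, Q u = 0 := fun u hu => congrFun hc ⟨u, hu⟩
  have hQdeg : Q ∈ Deg W (M - D) := by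
    refine sum_mem' _ _ fun S _ => Submodule.smul_mem _ (c S) (chi_mem ?_)
    exact (Finset.mem_filter.1 S.2).2
  have hQne : ∃ u, Q u ≠ 0 := by
    by_contra hcon
    push Not at hcon
    set c' : Finset W → ℝ := fun S => if h : S ∈ I then c ⟨S, h⟩ else 0 with hc'
    have h1 : ∀ u, Q u = ∑ S, c' S * chi S u := by
      intro u
      rw [hQ]
      beta_reduce
      have h2 : ∑ S : I, c S * chi (S : Finset W) u = ∑ S : I, c' S * chi (S : Finset W) u := by
        refine Finset.sum_congr rfl fun S _ => ?_
        rw [hc']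
        beta_reduce
        rw [dif_pos S.2]
      rw [h2, Finset.sum_coe_sort I (fun S => c' S * chi S u)]
      refine Finset.sum_subset (Finset.subset_univ _) fun S _ hS => ?_
      rw [hc']
      beta_reduce
      rw [dif_neg hS, zero_mul]
    have h2 := parseval h1
    have h3 : ∑ u, Q u ^ 2 = 0 := Finset.sum_eq_zero fun u _ => by rw [hcon u]; ring
    rw [h3] at h2
    have h4 : ∑ S, c' S ^ 2 = 0 := by
      have : (0 : ℝ) < 2 ^ Fintype.card W := by positivity
      nlinarith [mul_pos this this]
    apply hc0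
    funext S
    have h5 := (Finset.sum_eq_zero_iff_of_nonneg fun S _ => sq_nonneg (c' S)).1 h4 S
      (Finset.mem_univ _)
    have h6 : c' S = 0 := pow_eq_zero_iff (two_ne_zero) |>.1 h5
    rw [hc'] at h6
    beta_reduce at h6
    rw [dif_pos S.2] at h6
    exact h6
  -- the contradiction
  have h1 : (fun u => Q u * Q u * P u) ∈ Deg W ((M - D) + (M - D) + D) :=
    mul_mem (mul_mem hQdeg hQdeg) hP
  have h2 := orth (by omega) h1
  have h3 : ∀ u, 0 ≤ Q u * Q u * P u * chi univ u := by
    intro u
    by_cases hu : u ∈ F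
    · rw [hQF u hu]; simp
    · have := hpar u hu
      have h4 : 0 ≤ Q u * Q u := mul_self_nonneg _
      nlinarith
  obtain ⟨u, hu⟩ := hQne
  have hu2 : u ∉ F := fun h => hu (hQF u h)
  have h4 : 0 < Q u * Q u * P u * chi univ u := by
    have h5 := hpar u hu2
    have h6 : 0 < Q u * Q u := mul_self_pos.2 hu
    rw [mul_assoc]
    exact mul_pos h6 h5
  have h5 := (Finset.sum_eq_zero_iff_of_nonneg fun u _ => h3 u).1 h2 u (Finset.mem_univ _)
  exact absurd h5 h4.ne'

end real

end H632.PM
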